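import Pool.Agent.H762.MX.Conv
import Pool.Agent.H762.TG.Conf

/-!
The theorem on the two embeddings of the lattices of an alternating link with long twist regions.
-/

set_option autoImplicit false

namespace Pool.Agent.H762.MX

open Finset Matrix
open Pool.Agent.H762.TG (Multigraph IsUnit' IsIsometry)

variable {V E : Type} [Fintype V] [Fintype E] [DecidableEq V] [DecidableEq E]

omit [Fintype V] [Fintype E] [DecidableEq V] [DecidableEq E] in
theorem exists_unit_of_span {L : Submodule ℤ (E → ℤ)} {x : E → ℤ}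
    (h : x ∈ Submodule.span ℤ {d | d ∈ L ∧ IsUnit' d ∧ ∀ f, x f = 0 → d f = 0}) {Q : E}
    (hQ : x Q ≠ 0) : ∃ d ∈ L, IsUnit' d ∧ (∀ f, x f = 0 → d f = 0) ∧ d Q ≠ 0 := by
  by_contra hcon
  push Not at hcon
  apply hQ
  have h1 : Submodule.span ℤ {d | d ∈ L ∧ IsUnit' d ∧ ∀ f, x f = 0 → d f = 0} ≤
      LinearMap.ker (LinearMap.proj Q : (E → ℤ) →ₗ[ℤ] ℤ) := by
    rw [Submodule.span_le]
    rintro d ⟨h1, h2, h3⟩
    exact hcon d h1 h2 h3
  exact h1 h

omit [Fintype V] [DecidableEq V] [DecidableEq E] in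
theorem cut_unit_mod_two (G : Multigraph V E) : ∀ x ∈ G.cuts, ∃ u z, u ∈ G.cuts ∧ z ∈ G.cuts ∧
    x = u + (2 : ℤ) • z ∧ IsUnit' u := by
  rintro x ⟨y, hy⟩
  refine ⟨fun e => y (G.tgt e) % 2 - y (G.src e) % 2, fun e => y (G.tgt e) / 2 - y (G.src e) / 2,
    ⟨fun v => y v % 2, fun e => rfl⟩, ⟨fun v => y v / 2, fun e => rfl⟩, ?_, ?_⟩
  · funext e
    rw [hy, Pi.add_apply, Pi.smul_apply, smul_eq_mul]
    omega
  · intro e
    simp only
    omega

omit [Fintype V] [DecidableEq V] [DecidableEq E] in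
theorem odd_of_unit {d : E → ℤ} (hd : IsUnit' d) {e : E} (he : d e ≠ 0) : Odd (d e) := by
  rcases hd e with h | h | h
  · exact absurd h he
  · rw [h]; exact odd_one
  · rw [h]; decide

theorem cast_ne {d : E → ℤ} (hd : IsUnit' d) {e f : E} (he : d e ≠ 0) (hf : d f = 0) :
    ((d e : ℤ) : ZMod 2) ≠ ((d f : ℤ) : ZMod 2) := by
  rw [hf, Int.cast_zero, Ne, cast_zero_iff, Int.not_even_iff_odd]
  exact odd_of_unit hd he

theorem toLin {ι κ : Type} [Fintype ι] [Fintype κ] {M : Submodule ℤ (ι → ℤ)}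
    {φ : (ι → ℤ) → κ → ℤ} (h : IsIsometry M φ) : ∃ f : M →ₗ[ℤ] (κ → ℤ),
    ∀ a b, f a ⬝ᵥ f b = (a : ι → ℤ) ⬝ᵥ (b : ι → ℤ) :=
  ⟨(AddMonoidHom.mk' (fun x : M => φ x) fun x y => (h x x.2 y y.2).1).toIntLinearMap,
    fun a b => (h a a.2 b b.2).2⟩

/-- one half of the argument -/
theorem half {L : Submodule ℤ (E → ℤ)} {S T : Finset E} (hST : ∀ e, e ∈ T ↔ e ∉ S)
    {ℓ : E → ℕ} (hℓ : ∀ e, 5 ≤ ℓ e) (hE : StdEmbeds (blowup L S ℓ)) :
    S.card ≤ Module.finrank ℤ L ∧ (Module.finrank ℤ L = S.card →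
      ∃ c : E → L →ₗ[ℤ] ℤ, ∀ x : L,
      ∑ P ∈ T, (ℓ P : ℤ) * (x : E → ℤ) P ^ 2 =
        ∑ e ∈ S, ((ℓ e : ℤ) * c e x ^ 2 + 2 * (x : E → ℤ) e * c e x)) := by
  obtain ⟨φ, hφ⟩ := hE
  obtain ⟨f, hf⟩ := toLin hφ
  have hfr := finrank_blowup L S ℓ fun e => by have := hℓ e; omega
  obtain ⟨h1, h2⟩ := of_embedding hST hℓ f hf
  rw [Fintype.card_fin] at h1 h2
  exact ⟨by omega, fun h => h2 (by omega)⟩

theorem main (G : Multigraph V E) (S : Finset E) (ℓ : E → ℕ) (h : LongRegions G S ℓ) :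
    (StdEmbeds (blowup G.cuts S ℓ) ∧ StdEmbeds (blowup G.flows Sᶜ ℓ)) ↔
      Module.finrank ℤ G.cuts = S.card ∧
      ∃ (π : S ≃ (Sᶜ : Finset E)) (η : S → ℤˣ), ∀ x ∈ G.cuts,
        ∑ e : S, (((ℓ (π e) : ℤ) - ℓ e) * x (π e) ^ 2 - 2 * (η e * x e * x (π e))) = 0 := by
  obtain ⟨hne, hser, hpar, hlen⟩ := h
  have hST : ∀ e, e ∈ Sᶜ ↔ e ∉ S := fun e => mem_compl
  have hST' : ∀ e, e ∈ S ↔ e ∉ Sᶜ := fun e => by rw [mem_compl, not_not]
  have hpos : ∀ e, 0 < ℓ e := fun e => by have := hlen e; omega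
  have hdot : ∀ x ∈ G.cuts, ∀ y ∈ G.flows, x ⬝ᵥ y = 0 := fun x hx y hy =>
    G.cuts_dot_flows hx hy
  have hdot' : ∀ y ∈ G.flows, ∀ x ∈ G.cuts, y ⬝ᵥ x = 0 := fun y hy x hx => by
    rw [dotProduct_comm]
    exact hdot x hx y hy
  have hperp : ∀ y, (∀ x ∈ G.cuts, x ⬝ᵥ y = 0) → y ∈ G.flows := fun y hy => G.isFlow_of_dot hy
  have hperp' : ∀ x, (∀ y ∈ G.flows, y ⬝ᵥ x = 0) → x ∈ G.cuts := fun x hx =>
    G.mem_cuts_of_dot fun y hy => by
      rw [dotProduct_comm]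
      exact hx y hy
  have hfr := G.finrank_add
  have hcard : S.card + (Sᶜ : Finset E).card = Fintype.card E := card_add_card_compl S
  constructor
  · rintro ⟨hE, hE'⟩
    have h5 : ∀ e, 5 ≤ ℓ e := by
      intro e
      by_contra hcon
      have h1 := hlen e
      have h2 : Fintype.card E ≤ 1 := by omega
      have h3 := Fintype.card_le_one_iff_subsingleton.1 h2
      obtain ⟨⟨x, hx, hxe⟩, y, hy, hye⟩ := hne e
      have h4 := hdot x hx y hy
      rw [dotProduct, Fintype.sum_subsingleton _ e] at h4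
      rcases mul_eq_zero.1 h4 with h | h
      · exact hxe h
      · exact hye h
    obtain ⟨a1, a2⟩ := half hST h5 hE
    obtain ⟨b1, b2⟩ := half hST' h5 hE'
    have hr : Module.finrank ℤ G.cuts = S.card := by omega
    have hr' : Module.finrank ℤ G.flows = (Sᶜ : Finset E).card := by omega
    obtain ⟨c, hc⟩ := a2 hr
    obtain ⟨d, hd⟩ := b2 hr'
    have h2 : ∀ e, (2 : ℤ) ≤ (fun e => (ℓ e : ℤ)) e := fun e => by
      have := h5 e
      simp only
      omega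
    have hcspan : ∀ x ∈ G.cuts, x ∈ Submodule.span ℤ
        {d | d ∈ G.cuts ∧ IsUnit' d ∧ ∀ f, x f = 0 → d f = 0} := fun x hx => G.cut_mem_span hx
    have hfspan : ∀ x ∈ G.flows, x ∈ Submodule.span ℤ
        {d | d ∈ G.flows ∧ IsUnit' d ∧ ∀ f, x f = 0 → d f = 0} := fun x hx =>
      G.flow_mem_span _ x hx le_rfl
    obtain ⟨p1, p2⟩ := pairing (L := G.cuts) (F := G.flows) (S := S) (T := Sᶜ)
      (ℓ := fun e => (ℓ e : ℤ)) (c := c) (cut_unit_mod_two G) hdot hST hc h2 hr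
      (fun e _ => (hne e).2)
      (fun e he f hf hef => by
        by_contra hcon
        push Not at hcon
        exact hef (hser e he f hf fun y hy => hcon y hy))
      (fun P _ => by
        obtain ⟨x, hx, hxe⟩ := (hne P).1
        obtain ⟨u, hu, hun, -, hue⟩ := exists_unit_of_span (hcspan x hx) hxe
        exact ⟨⟨u, hu⟩, odd_of_unit hun hue⟩)
      (fun P hP Q hQ hPQ => by
        have h3 : ¬ Parallel G P Q := fun h => hPQ (hpar P ((hST P).1 hP) Q ((hST Q).1 hQ) h)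
        unfold Parallel at h3
        push Not at h3
        obtain ⟨x, hx, h4⟩ := h3
        rcases h4 with ⟨h5, h6⟩ | ⟨h5, h6⟩
        · obtain ⟨u, hu, hun, hv, hue⟩ := exists_unit_of_span (hcspan x hx) h6
          exact ⟨⟨u, hu⟩, (cast_ne hun hue (hv _ h5)).symm⟩
        · obtain ⟨u, hu, hun, hv, hue⟩ := exists_unit_of_span (hcspan x hx) h5
          exact ⟨⟨u, hu⟩, cast_ne hun hue (hv _ h6)⟩)
    obtain ⟨q1, q2⟩ := pairing (L := G.flows) (F := G.cuts) (S := Sᶜ) (T := S)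
      (ℓ := fun e => (ℓ e : ℤ)) (c := d)
      (fun x hx => by
        obtain ⟨u, z, h3, h4, h5, h6⟩ := G.exists_unit_mod_two _ x hx le_rfl
        exact ⟨u, z, h3, h4, h5, h6⟩) hdot' hST' hd h2 hr'
      (fun e _ => (hne e).1)
      (fun e he f hf hef => by
        by_contra hcon
        push Not at hcon
        exact hef (hpar e ((hST e).1 he) f ((hST f).1 hf) fun y hy => hcon y hy))
      (fun P _ => by
        obtain ⟨x, hx, hxe⟩ := (hne P).2
        obtain ⟨u, hu, hun, -, hue⟩ := exists_unit_of_span (hfspan x hx) hxe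
        exact ⟨⟨u, hu⟩, odd_of_unit hun hue⟩)
      (fun P hP Q hQ hPQ => by
        have h3 : ¬ G.Series P Q := fun h => hPQ (hser P hP Q hQ h)
        unfold Multigraph.Series at h3
        push Not at h3
        obtain ⟨x, hx, h4⟩ := h3
        rcases h4 with ⟨h5, h6⟩ | ⟨h5, h6⟩
        · obtain ⟨u, hu, hun, hv, hue⟩ := exists_unit_of_span (hfspan x hx) h6
          exact ⟨⟨u, hu⟩, (cast_ne hun hue (hv _ h5)).symm⟩
        · obtain ⟨u, hu, hun, hv, hue⟩ := exists_unit_of_span (hfspan x hx) h5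
          exact ⟨⟨u, hu⟩, cast_ne hun hue (hv _ h6)⟩)
    refine ⟨hr, ?_⟩
    -- the two excesses
    have hlen' : ∀ e, (Fintype.card E : ℤ) + 3 ≤ ℓ e := fun e => by
      exact_mod_cast hlen e
    have s1 : ∑ e ∈ S, ((ℓ e : ℤ) - 2) = ∑ e ∈ S, (ℓ e : ℤ) - 2 * S.card := by
      rw [sum_sub_distrib, sum_const, nsmul_eq_mul]
      ring
    have s2 : ∑ e ∈ Sᶜ, ((ℓ e : ℤ) - 2) = ∑ e ∈ Sᶜ, (ℓ e : ℤ) - 2 * (Sᶜ : Finset E).card := by
      rw [sum_sub_distrib, sum_const, nsmul_eq_mul]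
      ring
    have hcard' : (S.card : ℤ) + (Sᶜ : Finset E).card = Fintype.card E := by exact_mod_cast hcard
    by_cases hD : ∑ P ∈ Sᶜ, (ℓ P : ℤ) - ∑ e ∈ S, ((ℓ e : ℤ) - 2) ≤ Fintype.card E
    · exact p2 fun e => by
        have := hlen' e
        linarith
    · have h3 : Pairing G.flows Sᶜ S fun e => (ℓ e : ℤ) := q2 fun e => by
        have := hlen' e
        linarith
      have hSc : (Sᶜ : Finset E).card = S.card := by
        obtain ⟨π, -⟩ := h3
        have := Fintype.card_congr π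
        rwa [Fintype.card_coe, Fintype.card_coe] at this
      exact pairing_dual hST' hperp' (by omega) h3
  · rintro ⟨hr, hP⟩
    have hP' : Pairing G.cuts S Sᶜ fun e => (ℓ e : ℤ) := hP
    have hSc : S.card = (Sᶜ : Finset E).card := by
      obtain ⟨π, -⟩ := hP
      have := Fintype.card_congr π
      rwa [Fintype.card_coe, Fintype.card_coe] at this
    have hr' : Module.finrank ℤ G.flows = (Sᶜ : Finset E).card := by omega
    exact ⟨embeds_of_pairing hST hpos hr hP',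
      embeds_of_pairing hST' hpos hr' (pairing_dual hST hperp (by omega) hP')⟩

end Pool.Agent.H762.MX
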