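import Pool.Agent.H762.MX.Core

/-!
The pairing of the regions.
-/

set_option autoImplicit false

namespace Pool.Agent.H762.MX

open Finset Matrix
open Pool.Agent.H762.TG (chi sum_chi chi_add zmod_add_self IsUnit')

theorem full_rank {M N : Type} [AddCommGroup M] [Module.Free ℤ M] [Module.Finite ℤ M]
    [AddCommGroup N] [Module.Free ℤ N] [Module.Finite ℤ N] (Φ : M →ₗ[ℤ] N)
    (hinj : Function.Injective Φ) (hr : Module.finrank ℤ M = Module.finrank ℤ N) (v : N) :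
    ∃ k : ℤ, k ≠ 0 ∧ ∃ x, Φ x = k • v := by
  have h1 : Module.finrank ℤ (LinearMap.range Φ) = Module.finrank ℤ N := by
    rw [LinearMap.finrank_range_of_inj hinj, hr]
  have hfin := Submodule.finiteQuotientOfFreeOfRankEq (LinearMap.range Φ) h1
  refine ⟨Nat.card (N ⧸ LinearMap.range Φ), ?_, ?_⟩
  · have := Nat.card_pos (α := N ⧸ LinearMap.range Φ)
    exact_mod_cast this.ne'
  · have h2 : Nat.card (N ⧸ LinearMap.range Φ) •
        (Submodule.Quotient.mk v : N ⧸ LinearMap.range Φ) = 0 := by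
      have : Fintype (N ⧸ LinearMap.range Φ) := Fintype.ofFinite _
      rw [Nat.card_eq_fintype_card]
      exact card_nsmul_eq_zero
    rw [← Submodule.Quotient.mk_smul, Submodule.Quotient.mk_eq_zero] at h2
    obtain ⟨x, hx⟩ := h2
    exact ⟨x, by rw [hx, natCast_zsmul]⟩

variable {E : Type} [Fintype E] [DecidableEq E]

theorem kill_aux {L : Submodule ℤ (E → ℤ)} {S T : Finset E} (hST : ∀ e, e ∈ T ↔ e ∉ S)
    {ℓ : E → ℤ} {c : E → L →ₗ[ℤ] ℤ}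
    (h1 : ∀ x : L, ∑ P ∈ T, ℓ P * (x : E → ℤ) P ^ 2 =
      ∑ e ∈ S, (ℓ e * c e x ^ 2 + 2 * (x : E → ℤ) e * c e x))
    (hℓ : ∀ e, 2 ≤ ℓ e) {v : E → ℤ} (hv : ∀ e ∈ T, v e = 0) {k : ℤ} {x : L}
    (hvc : ∑ e ∈ S, v e * c e x = 0)
    (hx : ∀ e ∈ S, (x : E → ℤ) e = k * v e - ℓ e * c e x) : (x : E → ℤ) = k • v := by
  have h2 := h1 x
  have h3 : ∑ e ∈ S, (ℓ e * c e x ^ 2 + 2 * (x : E → ℤ) e * c e x) =
      2 * k * ∑ e ∈ S, v e * c e x - ∑ e ∈ S, ℓ e * c e x ^ 2 := by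
    rw [mul_sum, ← sum_sub_distrib]
    exact sum_congr rfl fun e he => by rw [hx e he]; ring
  rw [h3, hvc, mul_zero, zero_sub] at h2
  have h4 : 0 ≤ ∑ e ∈ S, ℓ e * c e x ^ 2 :=
    sum_nonneg fun e _ => mul_nonneg (by linarith [hℓ e]) (sq_nonneg _)
  have h5 : ∀ P ∈ T, 0 ≤ ℓ P * (x : E → ℤ) P ^ 2 :=
    fun e _ => mul_nonneg (by linarith [hℓ e]) (sq_nonneg _)
  have h6 : ∑ P ∈ T, ℓ P * (x : E → ℤ) P ^ 2 = 0 := by
    have := sum_nonneg h5
    linarith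
  have h7 : ∑ e ∈ S, ℓ e * c e x ^ 2 = 0 := by linarith
  rw [sum_eq_zero_iff_of_nonneg h5] at h6
  rw [sum_eq_zero_iff_of_nonneg
    (fun e _ => mul_nonneg (by linarith [hℓ e]) (sq_nonneg _))] at h7
  funext e
  rw [Pi.smul_apply, smul_eq_mul]
  by_cases he : e ∈ S
  · have h8 := h7 e he
    rcases mul_eq_zero.1 h8 with h | h
    · have := hℓ e; omega
    · rw [hx e he, pow_eq_zero_iff (by norm_num) |>.1 h, mul_zero, sub_zero]
  · have he' := (hST e).2 he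
    rcases mul_eq_zero.1 (h6 e he') with h | h
    · have := hℓ e; omega
    · rw [pow_eq_zero_iff (by norm_num) |>.1 h, hv e he', mul_zero]

theorem kill {L : Submodule ℤ (E → ℤ)} {S T : Finset E} (hST : ∀ e, e ∈ T ↔ e ∉ S)
    {ℓ : E → ℤ} {c : E → L →ₗ[ℤ] ℤ}
    (h1 : ∀ x : L, ∑ P ∈ T, ℓ P * (x : E → ℤ) P ^ 2 =
      ∑ e ∈ S, (ℓ e * c e x ^ 2 + 2 * (x : E → ℤ) e * c e x))
    (hℓ : ∀ e, 2 ≤ ℓ e) (hr : Module.finrank ℤ L = S.card) {v : E → ℤ} (hv : ∀ e ∈ T, v e = 0)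
    (hvc : ∀ x : L, ∑ e ∈ S, v e * c e x = 0) : ∃ k : ℤ, k ≠ 0 ∧ k • v ∈ L := by
  let Φ : L →ₗ[ℤ] (S → ℤ) := LinearMap.pi fun e => ev L e + ℓ e • c e
  have hΦ : ∀ x (e : S), Φ x e = (x : E → ℤ) e + ℓ e * c e x := fun x e => rfl
  have hinj : Function.Injective Φ := by
    rw [← LinearMap.ker_eq_bot, LinearMap.ker_eq_bot']
    intro x hx
    have h2 := kill_aux hST h1 hℓ (v := 0) (fun _ _ => rfl) (k := 0) (x := x)
      (by simp) (by
        intro e he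
        have h3 := congrFun hx ⟨e, he⟩
        rw [hΦ] at h3
        simp only [Pi.zero_apply] at h3
        simp only [Pi.zero_apply]
        linarith)
    rw [zero_smul] at h2
    exact Subtype.ext h2
  obtain ⟨k, hk, x, hx⟩ := full_rank Φ hinj (by rw [hr, Module.finrank_pi, Fintype.card_coe])
    (fun e => v e : S → ℤ)
  refine ⟨k, hk, ?_⟩
  have h2 := kill_aux hST h1 hℓ hv (k := k) (x := x) (hvc x) (by
    intro e he
    have h3 := congrFun hx ⟨e, he⟩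
    rw [hΦ, Pi.smul_apply, smul_eq_mul] at h3
    simp only at h3
    linarith)
  rw [← h2]
  exact x.2

/-- The combinatorial condition. -/
def Pairing (L : Submodule ℤ (E → ℤ)) (S T : Finset E) (ℓ : E → ℤ) : Prop :=
  ∃ (π : S ≃ T) (η : S → ℤˣ), ∀ x ∈ L,
    ∑ e : S, ((ℓ (π e) - ℓ e) * x (π e) ^ 2 - 2 * (η e * x e * x (π e))) = 0

theorem pairing {L F : Submodule ℤ (E → ℤ)}
    (hL : ∀ x ∈ L, ∃ u z, u ∈ L ∧ z ∈ L ∧ x = u + (2 : ℤ) • z ∧ IsUnit' u)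
    (hLF : ∀ x ∈ L, ∀ y ∈ F, x ⬝ᵥ y = 0)
    {S T : Finset E} (hST : ∀ e, e ∈ T ↔ e ∉ S) {ℓ : E → ℤ} {c : E → L →ₗ[ℤ] ℤ}
    (h1 : ∀ x : L, ∑ P ∈ T, ℓ P * (x : E → ℤ) P ^ 2 =
      ∑ e ∈ S, (ℓ e * c e x ^ 2 + 2 * (x : E → ℤ) e * c e x))
    (hℓ : ∀ e, 2 ≤ ℓ e) (hr : Module.finrank ℤ L = S.card)
    (hbr : ∀ e ∈ S, ∃ y ∈ F, y e ≠ 0)
    (hser : ∀ e ∈ S, ∀ f ∈ S, e ≠ f → ∃ y ∈ F, ¬ (y e = 0 ↔ y f = 0))
    (hodd : ∀ P ∈ T, ∃ x : L, Odd ((x : E → ℤ) P))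
    (hdist : ∀ P ∈ T, ∀ Q ∈ T, P ≠ Q →
      ∃ x : L, (((x : E → ℤ) P : ℤ) : ZMod 2) ≠ (((x : E → ℤ) Q : ℤ) : ZMod 2)) :
    (∑ e ∈ S, (ℓ e - 2) ≤ ∑ P ∈ T, ℓ P) ∧
    ((∀ e, ∑ P ∈ T, ℓ P - ∑ e ∈ S, (ℓ e - 2) < ℓ e - 2) → Pairing L S T ℓ) := by
  have hc : ∀ e ∈ S, c e ≠ 0 := by
    intro e he h0
    obtain ⟨k, hk, hkL⟩ := kill hST h1 hℓ hr (v := Pi.single e 1) (by
      intro P hP
      rw [Pi.single_eq_of_ne]
      rintro rfl
      exact (hST _).1 hP he) (by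
      intro x
      apply sum_eq_zero
      intro f _
      by_cases hf : f = e
      · subst hf; rw [h0, LinearMap.zero_apply, mul_zero]
      · rw [Pi.single_eq_of_ne hf, zero_mul])
    obtain ⟨y, hy, hye⟩ := hbr e he
    have h2 := hLF _ hkL y hy
    rw [smul_dotProduct, single_dotProduct, one_mul, smul_eq_mul] at h2
    rcases mul_eq_zero.1 h2 with h | h
    · exact hk h
    · exact hye h
  obtain ⟨hle, hcore⟩ := core hL h1 hℓ hc hodd hdist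
  refine ⟨hle, fun hbig => ?_⟩
  obtain ⟨hS, hT⟩ := hcore hbig
  choose π0 hπT hπ using hS
  -- signs
  have hs : ∀ e (he : e ∈ S), ∃ s : ℤˣ, ∀ x : L, c e x = s * (x : E → ℤ) (π0 e he) := by
    intro e he
    rcases hπ e he with h | h
    · exact ⟨1, fun x => by rw [h]; simp⟩
    · exact ⟨-1, fun x => by rw [h]; simp⟩
  choose s hs using hs
  let π1 : S → T := fun e => ⟨π0 e e.2, hπT e e.2⟩
  have hinj : Function.Injective π1 := by
    rintro ⟨e, he⟩ ⟨f, hf⟩ hef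
    have hef' : π0 e he = π0 f hf := congrArg Subtype.val hef
    by_contra hne
    have hne' : e ≠ f := fun h => hne (Subtype.ext h)
    obtain ⟨k, hk, hkL⟩ := kill hST h1 hℓ hr
      (v := Pi.single e (s e he : ℤ) - Pi.single f (s f hf : ℤ)) (by
        intro P hP
        rw [Pi.sub_apply, Pi.single_eq_of_ne, Pi.single_eq_of_ne, sub_zero]
        · rintro rfl
          exact (hST _).1 hP hf
        · rintro rfl
          exact (hST _).1 hP he) (by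
        intro x
        have h2 : ∀ g ∈ S, (Pi.single e (s e he : ℤ) - Pi.single f (s f hf : ℤ) : E → ℤ) g * c g x =
            (if g = e then (s e he : ℤ) * c g x else 0) -
            (if g = f then (s f hf : ℤ) * c g x else 0) := by
          intro g _
          rw [Pi.sub_apply, Pi.single_apply, Pi.single_apply]
          split_ifs <;> ring
        rw [sum_congr rfl h2, sum_sub_distrib, sum_ite_eq' S e, sum_ite_eq' S f, if_pos he,
          if_pos hf, hs e he, hs f hf, hef', ← mul_assoc, ← mul_assoc]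
        have h3 : ∀ t : ℤˣ, (t : ℤ) * (t : ℤ) = 1 := fun t => by
          rcases Int.units_eq_one_or t with h | h <;> rw [h] <;> rfl
        rw [h3, h3, sub_self])
    obtain ⟨y, hy, hye⟩ := hser e he f hf hne'
    have h2 := hLF _ hkL y hy
    rw [smul_dotProduct, sub_dotProduct, single_dotProduct, single_dotProduct, smul_eq_mul] at h2
    rcases mul_eq_zero.1 h2 with h | h
    · exact hk h
    · apply hye
      rcases Int.units_eq_one_or (s e he) with h3 | h3 <;>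
        rcases Int.units_eq_one_or (s f hf) with h4 | h4 <;> rw [h3, h4] at h <;>
        push_cast at h <;> constructor <;> intro h5 <;> rw [h5] at h <;> linarith
  have hsurj : Function.Surjective π1 := by
    rintro ⟨P, hP⟩
    obtain ⟨e, he, h2⟩ := hT P hP
    refine ⟨⟨e, he⟩, Subtype.ext ?_⟩
    by_contra hne
    obtain ⟨x, hx⟩ := hdist (π0 e he) (hπT e he) P hP hne
    apply hx
    rw [← h2 x, hs e he x]
    rcases Int.units_eq_one_or (s e he) with h3 | h3 <;> rw [h3]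
    · simp
    · push_cast
      have : ∀ a : ZMod 2, a = -1 * a := by decide
      exact this _
  refine ⟨Equiv.ofBijective π1 ⟨hinj, hsurj⟩, fun e => s e e.2, fun x hx => ?_⟩
  have h2 := h1 ⟨x, hx⟩
  have h3 : ∑ P ∈ T, ℓ P * x P ^ 2 = ∑ e : S, ℓ (π1 e) * x (π1 e) ^ 2 := by
    rw [← sum_coe_sort T fun P => ℓ P * x P ^ 2]
    exact (Equiv.sum_comp (Equiv.ofBijective π1 ⟨hinj, hsurj⟩)
      fun P : T => ℓ P * x P ^ 2).symm
  have h4 : ∑ e ∈ S, (ℓ e * c e ⟨x, hx⟩ ^ 2 + 2 * x e * c e ⟨x, hx⟩) =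
      ∑ e : S, (ℓ e * x (π1 e) ^ 2 + 2 * (s e e.2 * x e * x (π1 e))) := by
    rw [← sum_coe_sort S fun e => ℓ e * c e ⟨x, hx⟩ ^ 2 + 2 * x e * c e ⟨x, hx⟩]
    apply sum_congr rfl
    intro e _
    rw [hs e e.2]
    have h3 : ((s e e.2 : ℤˣ) : ℤ) * (s e e.2 : ℤˣ) = 1 := by
      rcases Int.units_eq_one_or (s e e.2) with h | h <;> rw [h] <;> rfl
    change ℓ e * ((s e e.2 : ℤˣ) * x (π1 e)) ^ 2 + 2 * x e * ((s e e.2 : ℤˣ) * x (π1 e)) = _
    calc ℓ e * ((s e e.2 : ℤˣ) * x (π1 e)) ^ 2 + 2 * x e * ((s e e.2 : ℤˣ) * x (π1 e))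
        = ℓ e * (((s e e.2 : ℤˣ) : ℤ) * (s e e.2 : ℤˣ)) * x (π1 e) ^ 2 +
          2 * ((s e e.2 : ℤˣ) * x e * x (π1 e)) := by ring
      _ = _ := by rw [h3, mul_one]
  change ∑ P ∈ T, ℓ P * x P ^ 2 = _ at h2
  rw [h3] at h2
  have h5 : ∑ e : S, ℓ (π1 e) * x (π1 e) ^ 2 =
      ∑ e : S, (ℓ e * x (π1 e) ^ 2 + 2 * (s e e.2 * x e * x (π1 e))) := h2.trans h4
  rw [← sub_eq_zero, ← sum_sub_distrib] at h5
  rw [← h5]
  apply sum_congr rfl
  intro e _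
  change (ℓ (π1 e) - ℓ e) * x (π1 e) ^ 2 - 2 * (s e e.2 * x e * x (π1 e)) = _
  ring

end Pool.Agent.H762.MX
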