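import Pool.Agent.H762.MX.Defs
import Pool.Agent.H762.MX.Pair

/-!
The rank of the blown up lattices, and what an embedding gives.
-/

set_option autoImplicit false

namespace Pool.Agent.H762.MX

open Finset Matrix
open Pool.Agent.H762.TG (chi sum_chi chi_add zmod_add_self IsUnit' chains)

variable {E : Type} [Fintype E] [DecidableEq E]

theorem mem_blowup {L : Submodule ℤ (E → ℤ)} {S : Finset E} {ℓ : E → ℕ}
    {z : (Σ e, Fin (ℓ e)) → ℤ} : z ∈ blowup L S ℓ ↔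
      ∃ x ∈ L, (∀ e ∈ S, ∑ i, z ⟨e, i⟩ = x e) ∧ ∀ e, e ∉ S → ∀ i, z ⟨e, i⟩ = x e := Iff.rfl

section rank

variable (L : Submodule ℤ (E → ℤ)) (S : Finset E) (ℓ : E → ℕ) (hpos : ∀ e, 0 < ℓ e)

/-- the projection to `L` as a map to all functions -/
def rho : ((Σ e, Fin (ℓ e)) → ℤ) →ₗ[ℤ] (E → ℤ) where
  toFun z e := if e ∈ S then ∑ i, z ⟨e, i⟩ else z ⟨e, ⟨0, hpos e⟩⟩
  map_add' z z' := by
    funext e
    simp only [Pi.add_apply, sum_add_distrib]
    split_ifs <;> rfl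
  map_smul' c z := by
    funext e
    simp only [Pi.smul_apply, smul_eq_mul, ← mul_sum, RingHom.id_apply]
    split_ifs <;> rfl

omit [Fintype E] in
theorem rho_eq {L : Submodule ℤ (E → ℤ)} {z : (Σ e, Fin (ℓ e)) → ℤ} {x : E → ℤ}
    (h1 : ∀ e ∈ S, ∑ i, z ⟨e, i⟩ = x e) (h2 : ∀ e, e ∉ S → ∀ i, z ⟨e, i⟩ = x e) :
    rho S ℓ hpos z = x := by
  funext e
  change (if e ∈ S then ∑ i, z ⟨e, i⟩ else z ⟨e, ⟨0, hpos e⟩⟩) = x e
  split_ifs with h
  · exact h1 e h
  · exact h2 e h _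

omit [Fintype E] in
theorem rho_mem (z : blowup L S ℓ) : rho S ℓ hpos z ∈ L := by
  obtain ⟨x, hx, h1, h2⟩ := z.2
  rw [rho_eq (L := L) S ℓ hpos h1 h2]
  exact hx

/-- an element with given image in `L` and given values at the nonzero places -/
def mk (x : E → ℤ) (w : (Σ e : S, Fin (ℓ e - 1)) → ℤ) : (Σ e, Fin (ℓ e)) → ℤ := fun k =>
  if h : k.1 ∈ S then
    (if h0 : (k.2 : ℕ) = 0 then x k.1 - ∑ j : Fin (ℓ k.1 - 1), w ⟨⟨k.1, h⟩, j⟩
      else w ⟨⟨k.1, h⟩, ⟨k.2 - 1, by have := k.2.2; simp only at this ⊢; omega⟩⟩)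
  else x k.1

omit [Fintype E] in
theorem mk_sum (x : E → ℤ) (w : (Σ e : S, Fin (ℓ e - 1)) → ℤ) {e : E} (he : e ∈ S)
    (hpos : ∀ e, 0 < ℓ e) : ∑ i, mk S ℓ x w ⟨e, i⟩ = x e := by
  have hn : ∃ m, ℓ e = m + 1 := ⟨ℓ e - 1, by have := hpos e; omega⟩
  obtain ⟨m, hm⟩ := hn
  let f : ℕ → ℤ := fun i => if h0 : i = 0 then x e - ∑ j : Fin (ℓ e - 1), w ⟨⟨e, he⟩, j⟩
      else if h : i - 1 < ℓ e - 1 then w ⟨⟨e, he⟩, ⟨i - 1, h⟩⟩ else 0
  have h1 : ∀ i : Fin (ℓ e), mk S ℓ x w ⟨e, i⟩ = f i := by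
    intro i
    simp only [mk, f, dif_pos he]
    split_ifs with h0 h
    · rfl
    · rfl
    · exact absurd (by have := i.2; omega) h
  rw [sum_congr rfl fun i _ => h1 i, Fin.sum_univ_eq_sum_range f, hm, sum_range_succ']
  have h2 : ∑ k ∈ range m, f (k + 1) = ∑ j : Fin (ℓ e - 1), w ⟨⟨e, he⟩, j⟩ := by
    have h3 : m = ℓ e - 1 := by omega
    rw [h3, ← Fin.sum_univ_eq_sum_range (fun k => f (k + 1))]
    apply sum_congr rfl
    intro j _
    simp only [f]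
    rw [dif_neg (by omega), dif_pos (by have := j.2; omega)]
    congr 1
  rw [h2]
  simp only [f, dif_pos]
  ring

omit [Fintype E] in
theorem mk_off (x : E → ℤ) (w : (Σ e : S, Fin (ℓ e - 1)) → ℤ) {e : E} (he : e ∉ S)
    (i : Fin (ℓ e)) : mk S ℓ x w ⟨e, i⟩ = x e := dif_neg he

theorem finrank_blowup (hpos : ∀ e, 0 < ℓ e) :
    Module.finrank ℤ (blowup L S ℓ) + S.card = Module.finrank ℤ L + ∑ e ∈ S, ℓ e := by
  let α : blowup L S ℓ →ₗ[ℤ] L × ((Σ e : S, Fin (ℓ e - 1)) → ℤ) :=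
    { toFun := fun z => (⟨rho S ℓ hpos z, rho_mem L S ℓ hpos z⟩,
        fun k => (z : (Σ e, Fin (ℓ e)) → ℤ) ⟨k.1, ⟨k.2 + 1, by have := k.2.2; omega⟩⟩)
      map_add' := fun z z' => by
        ext1
        · apply Subtype.ext
          exact map_add (rho S ℓ hpos) (z : (Σ e, Fin (ℓ e)) → ℤ) z'
        · rfl
      map_smul' := fun c z => by
        ext1
        · apply Subtype.ext
          exact map_smul (rho S ℓ hpos) c (z : (Σ e, Fin (ℓ e)) → ℤ)
        · rfl }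
  have hα1 : ∀ z, ((α z).1 : E → ℤ) = rho S ℓ hpos z := fun z => rfl
  have hα2 : ∀ z k, (α z).2 k = (z : (Σ e, Fin (ℓ e)) → ℤ) ⟨k.1, ⟨k.2 + 1, by
    have := k.2.2; omega⟩⟩ := fun z k => rfl
  have hinj : Function.Injective α := by
    rw [← LinearMap.ker_eq_bot, LinearMap.ker_eq_bot']
    intro z hz
    obtain ⟨x, hx, h1, h2⟩ := z.2
    have h3 : x = 0 := by
      rw [← rho_eq (L := L) S ℓ hpos h1 h2, ← hα1, hz]
      rfl
    have h4 : ∀ (e : E) (he : e ∈ S) (i : Fin (ℓ e)), (i : ℕ) ≠ 0 →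
        (z : (Σ e, Fin (ℓ e)) → ℤ) ⟨e, i⟩ = 0 := by
      intro e he i hi
      have h5 := hα2 z ⟨⟨e, he⟩, ⟨i - 1, by have := i.2; simp only; omega⟩⟩
      rw [hz] at h5
      have h6 : (⟨(i : ℕ) - 1 + 1, by have := i.2; omega⟩ : Fin (ℓ e)) = i := by
        apply Fin.ext
        simp only
        omega
      simp only at h5
      rw [h6] at h5
      exact h5.symm
    apply Subtype.ext
    funext k
    obtain ⟨e, i⟩ := k
    by_cases he : e ∈ S
    · by_cases hi : (i : ℕ) = 0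
      · have h5 := h1 e he
        rw [h3] at h5
        rw [sum_eq_single i] at h5
        · exact h5
        · intro j _ hj
          apply h4 e he j
          intro h6
          exact hj (Fin.ext (by rw [h6, hi]))
        · intro h6; exact absurd (mem_univ _) h6
      · exact h4 e he i hi
    · rw [h2 e he i, h3]
      rfl
  have hsurj : Function.Surjective α := by
    rintro ⟨⟨x, hx⟩, w⟩
    have hmem : mk S ℓ x w ∈ blowup L S ℓ := ⟨x, hx, fun e he => mk_sum S ℓ x w he hpos,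
      fun e he i => mk_off S ℓ x w he i⟩
    refine ⟨⟨mk S ℓ x w, hmem⟩, ?_⟩
    ext1
    · apply Subtype.ext
      exact rho_eq (L := L) S ℓ hpos (fun e he => mk_sum S ℓ x w he hpos)
        (fun e he i => mk_off S ℓ x w he i)
    · funext k
      rw [hα2]
      simp only [mk]
      rw [dif_pos k.1.2, dif_neg (by simp)]
      rfl
  have h1 := (LinearEquiv.ofBijective α ⟨hinj, hsurj⟩).finrank_eq
  rw [h1, Module.finrank_prod, Module.finrank_pi, Fintype.card_sigma, add_assoc]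
  congr 1
  have h2 : ∑ e : S, Fintype.card (Fin (ℓ e - 1)) = ∑ e ∈ S, (ℓ e - 1) := by
    rw [← sum_coe_sort S fun e => ℓ e - 1]
    simp
  rw [h2, card_eq_sum_ones, ← sum_add_distrib]
  apply sum_congr rfl
  intro e _
  have := hpos e
  omega

end rank

end Pool.Agent.H762.MX
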