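import Pool.Agent.H762.MX.Emb

/-!
A pairing gives embeddings; duality.
-/

set_option autoImplicit false

namespace Pool.Agent.H762.MX

open Finset Matrix
open Pool.Agent.H762.TG (chi sum_chi chi_add zmod_add_self IsUnit' chains IsIsometry)

variable {E : Type} [Fintype E] [DecidableEq E]

theorem unit_sq (t : ℤˣ) : (t : ℤ) * (t : ℤ) = 1 := by
  rcases Int.units_eq_one_or t with h | h <;> rw [h] <;> rfl

omit [Fintype E] [DecidableEq E] in
/-- the polar form -/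
theorem polar {L : Submodule ℤ (E → ℤ)} {S T : Finset E} {ℓ : E → ℤ} {π : S ≃ T} {η : S → ℤˣ}
    (h : ∀ x ∈ L, ∑ e : S, ((ℓ (π e) - ℓ e) * x (π e) ^ 2 - 2 * (η e * x e * x (π e))) = 0)
    {x y : E → ℤ} (hx : x ∈ L) (hy : y ∈ L) :
    ∑ e : S, ((ℓ (π e) - ℓ e) * (x (π e) * y (π e)) - η e * x e * y (π e) -
      η e * y e * x (π e)) = 0 := by
  have h1 := h _ (L.add_mem hx hy)
  have h2 := h x hx
  have h3 := h y hy
  have h4 : ∑ e : S, ((ℓ (π e) - ℓ e) * (x + y) (π e) ^ 2 -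
      2 * (η e * (x + y) e * (x + y) (π e))) =
      ∑ e : S, ((ℓ (π e) - ℓ e) * x (π e) ^ 2 - 2 * (η e * x e * x (π e))) +
      ∑ e : S, ((ℓ (π e) - ℓ e) * y (π e) ^ 2 - 2 * (η e * y e * y (π e))) +
      2 * ∑ e : S, ((ℓ (π e) - ℓ e) * (x (π e) * y (π e)) - η e * x e * y (π e) -
        η e * y e * x (π e)) := by
    rw [mul_sum, ← sum_add_distrib, ← sum_add_distrib]
    apply sum_congr rfl
    intro e _
    simp only [Pi.add_apply]
    ring
  rw [h4, h2, h3] at h1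
  linarith

theorem sum_split {S T : Finset E} (hST : ∀ e, e ∈ T ↔ e ∉ S) (f : E → ℤ) :
    ∑ e, f e = ∑ e ∈ S, f e + ∑ e ∈ T, f e := by
  have hdisj : Disjoint S T := by
    rw [disjoint_left]
    intro e he he'
    exact (hST e).1 he' he
  have huniv : (univ : Finset E) = S ∪ T := by
    ext e
    rw [mem_union, hST e]
    simp [em]
  rw [huniv, sum_union hdisj]

theorem embeds_of_pairing {L : Submodule ℤ (E → ℤ)} {S T : Finset E}
    (hST : ∀ e, e ∈ T ↔ e ∉ S) {ℓ : E → ℕ} (hpos : ∀ e, 0 < ℓ e)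
    (hr : Module.finrank ℤ L = S.card) (hP : Pairing L S T fun e => (ℓ e : ℤ)) :
    StdEmbeds (blowup L S ℓ) := by
  classical
  obtain ⟨π, η, h⟩ := hP
  have hN : Fintype.card (Σ e : S, Fin (ℓ e)) = Module.finrank ℤ (blowup L S ℓ) := by
    have h1 := finrank_blowup L S ℓ hpos
    rw [Fintype.card_sigma]
    simp only [Fintype.card_fin]
    rw [sum_coe_sort S fun e => ℓ e]
    omega
  let θ := Fintype.equivFinOfCardEq hN
  let g : ((Σ e, Fin (ℓ e)) → ℤ) → (Σ e : S, Fin (ℓ e)) → ℤ := fun z k =>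
    z ⟨k.1, k.2⟩ + η k.1 * z ⟨π k.1, ⟨0, hpos _⟩⟩
  have hg : ∀ z (k : Σ e : S, Fin (ℓ e)), g z k = z ⟨k.1, k.2⟩ +
    η k.1 * z ⟨π k.1, ⟨0, hpos _⟩⟩ := fun z k => rfl
  refine ⟨fun z k => g z (θ.symm k), ?_⟩
  intro z hz z' hz'
  refine ⟨?_, ?_⟩
  · funext k
    simp only [Pi.add_apply, hg]
    ring
  obtain ⟨x, hx, h1, h2⟩ := hz
  obtain ⟨x', hx', h1', h2'⟩ := hz'
  have hT : ∀ P : T, (P : E) ∉ S := fun P => (hST _).1 P.2
  have hl : (fun k => g z (θ.symm k)) ⬝ᵥ (fun k => g z' (θ.symm k)) =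
      ∑ e : S, (∑ i, z ⟨e, i⟩ * z' ⟨e, i⟩ + η e * x e * x' (π e) + η e * x' e * x (π e) +
        ℓ e * (x (π e) * x' (π e))) := by
    rw [dotProduct, Equiv.sum_comp θ.symm fun k => g z k * g z' k, Fintype.sum_sigma]
    apply sum_congr rfl
    intro e _
    simp only [hg, h2 _ (hT (π e)), h2' _ (hT (π e))]
    have h3 : ∀ i : Fin (ℓ e), (z ⟨e, i⟩ + η e * x (π e)) * (z' ⟨e, i⟩ + η e * x' (π e)) =
        z ⟨e, i⟩ * z' ⟨e, i⟩ + (η e * x' (π e)) * z ⟨e, i⟩ + (η e * x (π e)) * z' ⟨e, i⟩ +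
        ((η e : ℤ) * η e) * (x (π e) * x' (π e)) := fun i => by ring
    rw [sum_congr rfl fun i _ => h3 i, sum_add_distrib, sum_add_distrib, sum_add_distrib,
      ← mul_sum, ← mul_sum, h1 e e.2, h1' e e.2, sum_const, card_univ, Fintype.card_fin,
      nsmul_eq_mul, unit_sq]
    ring
  have hrr : z ⬝ᵥ z' = ∑ e : S, ∑ i, z ⟨e, i⟩ * z' ⟨e, i⟩ +
      ∑ e : S, ℓ (π e) * (x (π e) * x' (π e)) := by
    rw [dotProduct, Fintype.sum_sigma, sum_split hST]
    congr 1
    · exact (sum_coe_sort S fun e => ∑ i, z ⟨e, i⟩ * z' ⟨e, i⟩).symm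
    · have h3 : ∑ e ∈ T, ∑ i, z ⟨e, i⟩ * z' ⟨e, i⟩ = ∑ e ∈ T, ℓ e * (x e * x' e) := by
        apply sum_congr rfl
        intro e he
        have he' := (hST e).1 he
        rw [sum_congr rfl fun i _ => by rw [h2 e he' i, h2' e he' i], sum_const, card_univ,
          Fintype.card_fin, nsmul_eq_mul]
      rw [h3, ← sum_coe_sort T fun e => (ℓ e : ℤ) * (x e * x' e)]
      exact (Equiv.sum_comp π fun P : T => (ℓ P : ℤ) * (x P * x' P)).symm
  change (_ : Fin _ → ℤ) ⬝ᵥ _ = _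
  rw [hl, hrr, ← sub_eq_zero, ← sum_add_distrib, ← sum_sub_distrib]
  have h3 := polar (ℓ := fun e => (ℓ e : ℤ)) h hx hx'
  rw [← neg_eq_zero, ← sum_neg_distrib] at h3
  rw [← h3]
  apply sum_congr rfl
  intro e _
  ring

theorem pairing_dual {L F : Submodule ℤ (E → ℤ)} {S T : Finset E}
    (hST : ∀ e, e ∈ T ↔ e ∉ S) {ℓ : E → ℤ}
    (hperp : ∀ y, (∀ x ∈ L, x ⬝ᵥ y = 0) → y ∈ F)
    (hr : Module.finrank ℤ L = Module.finrank ℤ F) (hP : Pairing L S T ℓ) :
    Pairing F T S ℓ := by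
  classical
  obtain ⟨π, η, h⟩ := hP
  refine ⟨π.symm, fun P => η (π.symm P), fun y hy => ?_⟩
  rw [← Equiv.sum_comp π]
  simp only [Equiv.symm_apply_apply]
  -- the map `J`
  let J : (E → ℤ) →ₗ[ℤ] (E → ℤ) :=
    { toFun := fun x e => if h : e ∈ S then -(η ⟨e, h⟩ * x (π ⟨e, h⟩)) else
        (ℓ e - ℓ (π.symm ⟨e, (hST e).2 h⟩)) * x e -
          η (π.symm ⟨e, (hST e).2 h⟩) * x (π.symm ⟨e, (hST e).2 h⟩)
      map_add' := fun x x' => by
        funext e
        simp only [Pi.add_apply]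
        split_ifs <;> ring
      map_smul' := fun c x => by
        funext e
        simp only [Pi.smul_apply, smul_eq_mul, RingHom.id_apply]
        split_ifs <;> ring }
  have hJS : ∀ x (e : S), J x e = -(η e * x (π e)) := fun x e => dif_pos e.2
  have hJT : ∀ x (e : S), J x (π e) = (ℓ (π e) - ℓ e) * x (π e) - η e * x e := by
    intro x e
    have h1 : ((π e : T) : E) ∉ S := (hST _).1 (π e).2
    change dite _ _ _ = _
    rw [dif_neg h1]
    have h2 : π.symm ⟨(π e : T), (hST _).2 h1⟩ = e := by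
      have : (⟨((π e : T) : E), (hST _).2 h1⟩ : T) = π e := Subtype.ext rfl
      rw [this, Equiv.symm_apply_apply]
    rw [h2]
  have hJF : ∀ x ∈ L, J x ∈ F := by
    intro x hx
    apply hperp
    intro x' hx'
    rw [dotProduct, sum_split hST, ← sum_coe_sort S fun e => x' e * J x e,
      ← sum_coe_sort T fun e => x' e * J x e, ← Equiv.sum_comp π, ← sum_add_distrib,
      ← polar h hx hx']
    apply sum_congr rfl
    intro e _
    rw [hJS, hJT]
    ring
  let JL : L →ₗ[ℤ] F := (J ∘ₗ L.subtype).codRestrict F fun x => hJF x x.2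
  have hJL : ∀ x : L, (JL x : E → ℤ) = J x := fun x => rfl
  have hinj : Function.Injective JL := by
    rw [← LinearMap.ker_eq_bot, LinearMap.ker_eq_bot']
    intro x hx
    have h0 : ∀ e, J x e = 0 := fun e => by
      rw [← hJL, hx]; rfl
    have h1 : ∀ e : S, (x : E → ℤ) (π e) = 0 := by
      intro e
      have h2 := h0 e
      rw [hJS] at h2
      rcases Int.units_eq_one_or (η e) with h | h <;> rw [h] at h2 <;> push_cast at h2 <;> linarith
    have h3 : ∀ e : S, (x : E → ℤ) e = 0 := by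
      intro e
      have h2 := h0 (π e)
      rw [hJT, h1, mul_zero, zero_sub] at h2
      rcases Int.units_eq_one_or (η e) with h | h <;> rw [h] at h2 <;> push_cast at h2 <;> linarith
    apply Subtype.ext
    funext e
    by_cases he : e ∈ S
    · exact h3 ⟨e, he⟩
    · have h4 := h1 (π.symm ⟨e, (hST e).2 he⟩)
      rw [Equiv.apply_symm_apply] at h4
      exact h4
  obtain ⟨k, hk, x, hx⟩ := full_rank JL hinj hr ⟨y, hy⟩
  have hky : ∀ e, k * y e = J x e := by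
    intro e
    rw [← hJL, hx]
    rfl
  have hmul : k ^ 2 * ∑ e : S, ((ℓ e - ℓ (π e)) * y e ^ 2 - 2 * (η e * y (π e) * y e)) = 0 := by
    rw [mul_sum, ← h x x.2]
    apply sum_congr rfl
    intro e _
    have h1 := hky e
    have h2 := hky (π e)
    rw [hJS] at h1
    rw [hJT] at h2
    calc k ^ 2 * ((ℓ e - ℓ (π e)) * y e ^ 2 - 2 * (η e * y (π e) * y e))
        = (ℓ e - ℓ (π e)) * (k * y e) ^ 2 - 2 * (η e * (k * y (π e)) * (k * y e)) := by ring
      _ = (ℓ e - ℓ (π e)) * (((η e : ℤ) * η e) * (x : E → ℤ) (π e) ^ 2) +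
          2 * (((η e : ℤ) * η e) * ((ℓ (π e) - ℓ e) * (x : E → ℤ) (π e) ^ 2) -
            ((η e : ℤ) * η e) * (η e * (x : E → ℤ) e * (x : E → ℤ) (π e))) := by
          rw [h1, h2]; ring
      _ = _ := by rw [unit_sq]; ring
  rcases mul_eq_zero.1 hmul with h1 | h1
  · exact absurd (pow_eq_zero_iff (by norm_num) |>.1 h1) hk
  · exact h1

end Pool.Agent.H762.MX
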