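import Pool.Agent.H762.MX.Four

/-!
The analysis of the functionals which come from an embedding.
-/

set_option autoImplicit false

namespace Pool.Agent.H762.MX

open Finset Matrix
open Pool.Agent.H762.TG (chi sum_chi chi_add zmod_add_self IsUnit')

/-- the coordinate functional -/
def ev {E : Type} (L : Submodule ℤ (E → ℤ)) (e : E) : L →ₗ[ℤ] ℤ := LinearMap.proj e ∘ₗ L.subtype

theorem ev_apply {E : Type} (L : Submodule ℤ (E → ℤ)) (e : E) (x : L) :
    ev L e x = (x : E → ℤ) e := rfl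

theorem exists_odd_part {M : Type} [AddCommGroup M] (x0 : M) : ∀ (n : ℕ) (c : M →ₗ[ℤ] ℤ),
    c x0 ≠ 0 → (c x0).natAbs ≤ n →
    ∃ (j : ℕ) (g : M →ₗ[ℤ] ℤ), (∀ x, c x = 2 ^ j * g x) ∧ ∃ x, Odd (g x) := by
  intro n
  induction n with
  | zero => intro c h0 h1; omega
  | succ n ih =>
    intro c h0 h1
    by_cases h : ∃ x, Odd (c x)
    · exact ⟨0, c, fun x => by simp, h⟩
    · push Not at h
      have hev : ∀ x, 2 ∣ c x := fun x => even_iff_two_dvd.1 (Int.not_odd_iff_even.1 (h x))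
      have h2 : ∀ x, c x = 2 * (c x / 2) := fun x => (Int.mul_ediv_cancel' (hev x)).symm
      let g : M →ₗ[ℤ] ℤ :=
        { toFun := fun x => c x / 2
          map_add' := fun x y => by
            have a := h2 (x + y)
            have b := h2 x
            have d := h2 y
            rw [map_add] at a
            rw [map_add]
            omega
          map_smul' := fun k x => by
            have a := h2 (k • x)
            have b := h2 x
            rw [map_smul, smul_eq_mul] at a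
            rw [map_smul, smul_eq_mul, RingHom.id_apply, smul_eq_mul]
            have e : 2 * (k * c x / 2) = 2 * (k * (c x / 2)) := by
              rw [← a]
              conv_lhs => rw [b]
              ring
            omega }
      have hg : ∀ x, c x = 2 * g x := h2
      obtain ⟨j, g', hj, hodd⟩ := ih g (by intro h3; exact h0 (by rw [hg, h3, mul_zero]))
        (by have := hg x0; omega)
      exact ⟨j + 1, g', fun x => by rw [hg, hj, pow_succ]; ring, hodd⟩

theorem term_aux {c u : ℤ} (hu : u = 0 ∨ u = 1 ∨ u = -1) : 0 ≤ c * (c + u) := by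
  rcases hu with rfl | rfl | rfl
  · nlinarith [sq_nonneg c]
  · rcases le_or_gt 0 c with h | h
    · positivity
    · nlinarith
  · rcases le_or_gt 1 c with h | h
    · nlinarith
    · nlinarith

variable {E : Type} [Fintype E] [DecidableEq E]

theorem core {L : Submodule ℤ (E → ℤ)}
    (hL : ∀ x ∈ L, ∃ u z, u ∈ L ∧ z ∈ L ∧ x = u + (2 : ℤ) • z ∧ IsUnit' u)
    {S T : Finset E} {ℓ : E → ℤ} {c : E → L →ₗ[ℤ] ℤ}
    (h1 : ∀ x : L, ∑ P ∈ T, ℓ P * (x : E → ℤ) P ^ 2 =
      ∑ e ∈ S, (ℓ e * c e x ^ 2 + 2 * (x : E → ℤ) e * c e x))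
    (hℓ : ∀ e, 2 ≤ ℓ e) (hc : ∀ e ∈ S, c e ≠ 0) (hodd : ∀ P ∈ T, ∃ x : L, Odd ((x : E → ℤ) P))
    (hdist : ∀ P ∈ T, ∀ Q ∈ T, P ≠ Q →
      ∃ x : L, (((x : E → ℤ) P : ℤ) : ZMod 2) ≠ (((x : E → ℤ) Q : ℤ) : ZMod 2)) :
    (∑ e ∈ S, (ℓ e - 2) ≤ ∑ P ∈ T, ℓ P) ∧
    ((∀ e, ∑ P ∈ T, ℓ P - ∑ e ∈ S, (ℓ e - 2) < ℓ e - 2) →
      (∀ e ∈ S, ∃ P ∈ T, (∀ x : L, c e x = (x : E → ℤ) P) ∨ ∀ x : L, c e x = -(x : E → ℤ) P) ∧
      ∀ P ∈ T, ∃ e ∈ S, ∀ x : L, ((c e x : ℤ) : ZMod 2) = (((x : E → ℤ) P : ℤ) : ZMod 2)) := by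
  classical
  obtain ⟨r, red, u, hu1, hu2, hred, hred0⟩ := exists_reps L hL
  have hpow := pow_pos' r
  -- nonzero classes
  have hne : ∀ g : L →ₗ[ℤ] ℤ, (∃ x, Odd (g x)) → red g ≠ 0 := by
    rintro g ⟨x, hx⟩ h0
    rw [← hred0, hred] at h0
    have h2 := h0 x
    rw [LinearMap.zero_apply, Int.cast_zero, cast_zero_iff] at h2
    exact (Int.not_even_iff_odd.2 hx) h2
  have hchi : ∀ (n : Fin r → ZMod 2) (g : L →ₗ[ℤ] ℤ),
      (Even (g (u n)) ∧ chi (n ⬝ᵥ red g) = 1) ∨ (Odd (g (u n)) ∧ chi (n ⬝ᵥ red g) = -1) := by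
    intro n g
    rw [← hu2]
    exact chi_cast _
  have hunit : ∀ (n : Fin r → ZMod 2) (P : E), 1 - chi (n ⬝ᵥ red (ev L P)) =
      2 * (u n : E → ℤ) P ^ 2 := by
    intro n P
    rcases hchi n (ev L P) with ⟨h2, h3⟩ | ⟨h2, h3⟩ <;> rw [h3] <;> rw [ev_apply] at h2 <;>
      rcases hu1 n P with h4 | h4 | h4 <;> rw [h4] at h2 ⊢ <;> revert h2 <;> decide
  have hodd' : ∀ P ∈ T, red (ev L P) ≠ 0 := fun P hP => hne _ (hodd P hP)
  have hT : ∀ n : Fin r → ZMod 2, ∑ P ∈ T, ℓ P * (1 - chi (n ⬝ᵥ red (ev L P))) =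
      ∑ e ∈ S, 2 * (ℓ e * c e (u n) ^ 2 + 2 * (u n : E → ℤ) e * c e (u n)) := by
    intro n
    rw [← mul_sum, ← h1, mul_sum]
    exact sum_congr rfl fun P _ => by rw [hunit]; ring
  have hparts : ∀ e, ∃ (j : ℕ) (g : L →ₗ[ℤ] ℤ), e ∈ S →
      ((∀ x, c e x = 2 ^ j * g x) ∧ ∃ x, Odd (g x)) := by
    intro e
    by_cases he : e ∈ S
    · obtain ⟨x, hx⟩ : ∃ x, c e x ≠ 0 := by
        by_contra hcon
        push Not at hcon
        exact hc e he (LinearMap.ext hcon)
      obtain ⟨j, g, h2, h3⟩ := exists_odd_part x _ (c e) hx le_rfl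
      exact ⟨j, g, fun _ => ⟨h2, h3⟩⟩
    · exact ⟨0, 0, fun h => absurd h he⟩
  choose j g hjg using hparts
  have hg' : ∀ e ∈ S, red (g e) ≠ 0 := fun e he => hne _ (hjg e he).2
  have hterm : ∀ (n : Fin r → ZMod 2), ∀ e ∈ S,
      ((ℓ e - 2) * 4 ^ j e) * (1 - chi (n ⬝ᵥ red (g e))) ≤
      2 * (ℓ e * c e (u n) ^ 2 + 2 * (u n : E → ℤ) e * c e (u n)) := by
    intro n e he
    have h2 := term_aux (c := c e (u n)) (hu1 n e)
    have h3 : (ℓ e - 2) * 4 ^ j e * (1 - chi (n ⬝ᵥ red (g e))) ≤ 2 * ((ℓ e - 2) * c e (u n) ^ 2) := by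
      rw [(hjg e he).1 (u n), mul_pow, ← pow_mul, mul_comm (j e) 2, pow_mul]
      have h4 : (0 : ℤ) ≤ (ℓ e - 2) * 4 ^ j e := mul_nonneg (by linarith [hℓ e]) (by positivity)
      norm_num
      rcases hchi n (g e) with ⟨-, h5⟩ | ⟨h5, h6⟩
      · rw [h5]
        have := mul_nonneg h4 (sq_nonneg (g e (u n)))
        nlinarith
      · rw [h6]
        have h7 : 1 ≤ (g e (u n)) ^ 2 := by
          have : g e (u n) ≠ 0 := by
            intro h8
            rw [h8] at h5
            revert h5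
            decide
          have := sq_pos_of_ne_zero this
          linarith
        nlinarith
    nlinarith
  have hall : ∀ n : Fin r → ZMod 2, 0 ≤ ∑ P ∈ T, ℓ P * (1 - chi (n ⬝ᵥ red (ev L P))) -
      ∑ e ∈ S, ((ℓ e - 2) * 4 ^ j e) * (1 - chi (n ⬝ᵥ red (g e))) := by
    intro n
    rw [hT, sub_nonneg]
    exact sum_le_sum fun e he => hterm n e he
  have hsum := four_sum T S ℓ (fun e => (ℓ e - 2) * 4 ^ j e) (fun P => red (ev L P))
    (fun e => red (g e)) hodd' hg'
  have hpos : 0 ≤ ∑ P ∈ T, ℓ P - ∑ e ∈ S, (ℓ e - 2) * 4 ^ j e := by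
    have h2 : 0 ≤ (2 : ℤ) ^ r * (∑ P ∈ T, ℓ P - ∑ e ∈ S, (ℓ e - 2) * 4 ^ j e) := by
      rw [← hsum]
      exact sum_nonneg fun n _ => hall n
    exact nonneg_of_mul_nonneg_right h2 hpow
  have hle4 : ∀ e ∈ S, (ℓ e - 2) ≤ (ℓ e - 2) * 4 ^ j e := by
    intro e _
    have h2 : (1 : ℤ) ≤ 4 ^ j e := one_le_pow₀ (by norm_num)
    nlinarith [hℓ e]
  have hmain : ∑ e ∈ S, (ℓ e - 2) ≤ ∑ P ∈ T, ℓ P := by
    have h2 := sum_le_sum hle4
    linarith
  refine ⟨hmain, fun hbig => ?_⟩
  set D : ℤ := ∑ P ∈ T, ℓ P - ∑ e ∈ S, (ℓ e - 2) with hD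
  have hD0 : 0 ≤ D := by linarith
  -- the exponents vanish
  have hj0 : ∀ e ∈ S, j e = 0 := by
    intro e he
    by_contra hj
    have h2 : (4 : ℤ) ≤ 4 ^ j e := by
      calc (4 : ℤ) = 4 ^ 1 := by norm_num
        _ ≤ 4 ^ j e := pow_le_pow_right₀ (by norm_num) (by omega)
    have h3 : ∑ f ∈ S, (ℓ f - 2) + (ℓ e - 2) ≤ ∑ f ∈ S, (ℓ f - 2) * 4 ^ j f := by
      rw [← sub_nonneg, ← sub_sub, ← sum_sub_distrib, sub_nonneg]
      refine le_trans ?_ (single_le_sum (f := fun f => (ℓ f - 2) * 4 ^ j f - (ℓ f - 2))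
        (fun f hf => by have := hle4 f hf; linarith) he)
      nlinarith [hℓ e]
    have := hbig e
    linarith
  have hcg : ∀ e ∈ S, ∀ x, c e x = g e x := by
    intro e he x
    rw [(hjg e he).1 x, hj0 e he, pow_zero, one_mul]
  have hcgL : ∀ e ∈ S, c e = g e := fun e he => LinearMap.ext (hcg e he)
  have hcred : ∀ e ∈ S, red (c e) ≠ 0 := fun e he => by rw [hcgL e he]; exact hg' e he
  have hall' : ∀ n : Fin r → ZMod 2, 0 ≤ ∑ P ∈ T, ℓ P * (1 - chi (n ⬝ᵥ red (ev L P))) -
      ∑ e ∈ S, (ℓ e - 2) * (1 - chi (n ⬝ᵥ red (c e))) := by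
    intro n
    have h2 : ∑ e ∈ S, (ℓ e - 2) * (1 - chi (n ⬝ᵥ red (c e))) =
        ∑ e ∈ S, ((ℓ e - 2) * 4 ^ j e) * (1 - chi (n ⬝ᵥ red (g e))) :=
      sum_congr rfl fun e he => by rw [hcgL e he, hj0 e he, pow_zero, mul_one]
    rw [h2]
    exact hall n
  have hdist' : ∀ P ∈ T, ∀ Q ∈ T, P ≠ Q → red (ev L P) ≠ red (ev L Q) := by
    intro P hP Q hQ hPQ h2
    obtain ⟨x, hx⟩ := hdist P hP Q hQ hPQ
    exact hx ((hred _ _).1 h2 x)
  have hfour : ∀ k : Fin r → ZMod 2, k ≠ 0 → ∀ s : ℤ, (s = 1 ∨ s = -1) →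
      s * (∑ P ∈ T, (if red (ev L P) = k then ℓ P else 0) -
        ∑ e ∈ S, (if red (c e) = k then ℓ e - 2 else 0)) ≤ D := by
    intro k hk s hs
    have h2 := four T S ℓ (fun e => ℓ e - 2) (fun P => red (ev L P)) (fun e => red (c e))
      hodd' hcred hall' hk hs
    have h3 : ∑ P ∈ T, ℓ P * (1 - s * if red (ev L P) = k then 1 else 0) =
        ∑ P ∈ T, ℓ P - s * ∑ P ∈ T, (if red (ev L P) = k then ℓ P else 0) := by
      rw [mul_sum, ← sum_sub_distrib]
      exact sum_congr rfl fun P _ => by split_ifs <;> ring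
    have h4 : ∑ e ∈ S, (ℓ e - 2) * (1 - s * if red (c e) = k then 1 else 0) =
        ∑ e ∈ S, (ℓ e - 2) - s * ∑ e ∈ S, (if red (c e) = k then ℓ e - 2 else 0) := by
      rw [mul_sum, ← sum_sub_distrib]
      exact sum_congr rfl fun P _ => by split_ifs <;> ring
    rw [h3, h4] at h2
    rw [mul_sub]
    linarith
  -- every parallel region is matched
  have hTS : ∀ P ∈ T, ∃ e ∈ S, red (c e) = red (ev L P) := by
    intro P hP
    by_contra hcon
    push Not at hcon
    have h2 := hfour (red (ev L P)) (hodd' P hP) 1 (Or.inl rfl)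
    have h3 : ∑ e ∈ S, (if red (c e) = red (ev L P) then ℓ e - 2 else 0) = 0 :=
      sum_eq_zero fun e he => if_neg (hcon e he)
    have h4 : ℓ P ≤ ∑ Q ∈ T, (if red (ev L Q) = red (ev L P) then ℓ Q else 0) := by
      have h5 := single_le_sum (f := fun Q => if red (ev L Q) = red (ev L P) then ℓ Q else 0)
        (fun Q _ => by
          split_ifs
          · have := hℓ Q; omega
          · exact le_rfl) hP
      simpa using h5
    have := hbig P
    linarith
  have hST : ∀ e ∈ S, ∃ P ∈ T, red (ev L P) = red (c e) := by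
    intro e he
    by_contra hcon
    push Not at hcon
    have h2 := hfour (red (c e)) (hcred e he) (-1) (Or.inr rfl)
    have h3 : ∑ P ∈ T, (if red (ev L P) = red (c e) then ℓ P else 0) = 0 :=
      sum_eq_zero fun e he => if_neg (hcon e he)
    have h4 : ℓ e - 2 ≤ ∑ f ∈ S, (if red (c f) = red (c e) then ℓ f - 2 else 0) := by
      have h5 := single_le_sum (f := fun f => if red (c f) = red (c e) then ℓ f - 2 else 0)
        (fun Q _ => by
          split_ifs
          · have := hℓ Q; omega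
          · exact le_rfl) he
      simpa using h5
    have := hbig e
    linarith
  -- the terms
  have hsum' := four_sum T S ℓ (fun e => ℓ e - 2) (fun P => red (ev L P))
    (fun e => red (c e)) hodd' hcred
  have hub : ∀ e ∈ S, ∑ n : Fin r → ZMod 2,
      (2 * (ℓ e * c e (u n) ^ 2 + 2 * (u n : E → ℤ) e * c e (u n)) -
        (ℓ e - 2) * (1 - chi (n ⬝ᵥ red (c e)))) ≤ 2 ^ r * D := by
    intro e he
    rw [hD, ← hsum']
    apply sum_le_sum
    intro n _
    rw [hT, ← sum_sub_distrib]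
    refine single_le_sum (f := fun e => 2 * (ℓ e * c e (u n) ^ 2 + 2 * (u n : E → ℤ) e * c e (u n)) -
        (ℓ e - 2) * (1 - chi (n ⬝ᵥ red (c e)))) (fun f hf => ?_) he
    have h2 := hterm n f hf
    rw [hj0 f hf, pow_zero, mul_one, ← hcgL f hf] at h2
    linarith
  have hstage : ∀ e ∈ S, ∀ P ∈ T, red (ev L P) = red (c e) → ∀ s : ℤ, (s = 1 ∨ s = -1) →
      (∀ x : L, c e x = s * (x : E → ℤ) P) ∨ ∃ g : L →ₗ[ℤ] ℤ,
        (∀ x : L, c e x = s * (x : E → ℤ) P + 2 * g x) ∧
        ∀ x : L, ((g x : ℤ) : ZMod 2) = (((x : E → ℤ) P : ℤ) : ZMod 2) := by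
    intro e he P hP hPe s hs
    by_cases h0 : ∀ x : L, c e x = s * (x : E → ℤ) P
    · exact Or.inl h0
    right
    push Not at h0
    obtain ⟨x0, hx0⟩ := h0
    obtain ⟨k, γ, hk, hγ⟩ := exists_odd_part x0 _ (c e - s • ev L P) (by
      rw [LinearMap.sub_apply, LinearMap.smul_apply, ev_apply, smul_eq_mul]
      exact sub_ne_zero.2 hx0) le_rfl
    have hk' : ∀ x : L, c e x = s * (x : E → ℤ) P + 2 ^ k * γ x := by
      intro x
      have := hk x
      rw [LinearMap.sub_apply, LinearMap.smul_apply, ev_apply, smul_eq_mul] at this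
      linarith
    have hγ' := hne γ hγ
    have hcong : ∀ x : L, (((x : E → ℤ) P : ℤ) : ZMod 2) = ((c e x : ℤ) : ZMod 2) :=
      (hred _ _).1 hPe
    have hk1 : k ≠ 0 := by
      rintro rfl
      obtain ⟨x, hx⟩ := hγ
      have h2 := hcong x
      rw [← sub_eq_zero, ← Int.cast_sub, cast_zero_iff, hk' x, pow_zero, one_mul] at h2
      rcases hs with rfl | rfl
      · rw [one_mul, sub_add_eq_sub_sub, sub_self, zero_sub, even_neg] at h2
        exact (Int.not_even_iff_odd.2 hx) h2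
      · have h3 : (x : E → ℤ) P - (-1 * (x : E → ℤ) P + γ x) = 2 * (x : E → ℤ) P - γ x := by ring
        rw [h3, Int.even_sub] at h2
        exact (Int.not_even_iff_odd.2 hx) (h2.1 (even_two_mul _))
    have hbe := hbig e
    have hu := hub e he
    by_cases hk2 : 2 ≤ k
    · exfalso
      have h4 : (4 : ℤ) ∣ 2 ^ k := ⟨2 ^ (k - 2), by
        rw [show (4 : ℤ) = 2 ^ 2 by norm_num, ← pow_add]
        congr 1
        omega⟩
      have hlow : ∀ n : Fin r → ZMod 2, (8 * ℓ e - 4) * (1 - chi (n ⬝ᵥ red γ)) ≤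
          2 * (ℓ e * c e (u n) ^ 2 + 2 * (u n : E → ℤ) e * c e (u n)) -
          (ℓ e - 2) * (1 - chi (n ⬝ᵥ red (c e))) := by
        intro n
        rcases hchi n γ with ⟨-, h5⟩ | ⟨h5, h6⟩
        · rw [h5, sub_self, mul_zero, sub_nonneg]
          have h2 := hterm n e he
          rw [hj0 e he, pow_zero, mul_one, ← hcgL e he] at h2
          exact h2
        · rw [h6]
          have h7 : 3 ≤ |c e (u n)| := by
            obtain ⟨m, hm⟩ := h4
            obtain ⟨t, ht⟩ := h5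
            have h8 : c e (u n) = s * (u n : E → ℤ) P + 4 * (m * (2 * t + 1)) := by
              rw [hk', hm, ht]; ring
            have h9 : m * (2 * t + 1) ≠ 0 := by
              intro h10
              rcases mul_eq_zero.1 h10 with h | h
              · rw [h, mul_zero] at hm
                exact absurd hm (by positivity)
              · omega
            rw [h8]
            generalize m * (2 * t + 1) = y at h9
            rcases hs with rfl | rfl <;> rcases hu1 n P with h | h | h <;> rw [h] <;>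
              rcases lt_or_gt_of_ne h9 with h10 | h10 <;> rw [le_abs] <;> omega
          have h8 : chi (n ⬝ᵥ red (c e)) = 1 ∨ chi (n ⬝ᵥ red (c e)) = -1 := by
            rcases hchi n (c e) with ⟨-, h⟩ | ⟨-, h⟩
            · exact Or.inl h
            · exact Or.inr h
          have h9 : -|c e (u n)| ≤ (u n : E → ℤ) e * c e (u n) := by
            rcases hu1 n e with h | h | h <;> rw [h]
            · rw [zero_mul]; exact neg_nonpos.2 (abs_nonneg _)
            · rw [one_mul]; exact neg_abs_le _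
            · rw [neg_one_mul, neg_le_neg_iff]; exact le_abs_self _
          have h10 : c e (u n) ^ 2 = |c e (u n)| ^ 2 := (sq_abs _).symm
          rw [h10, mul_assoc]
          have h11 := hℓ e
          generalize |c e (u n)| = a at h7 h9 h10 ⊢
          have h13 : 0 ≤ (a - 3) * (ℓ e * (a + 3) - 2) :=
            mul_nonneg (by linarith) (by nlinarith)
          have h12 : 9 * ℓ e - 6 ≤ ℓ e * a ^ 2 - 2 * a := by
            have h14 : (a - 3) * (ℓ e * (a + 3) - 2) = ℓ e * a ^ 2 - 2 * a - (9 * ℓ e - 6) := by ring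
            linarith
          rcases h8 with h | h <;> rw [h] <;> nlinarith
      have h5 : ∑ n : Fin r → ZMod 2, (8 * ℓ e - 4) * (1 - chi (n ⬝ᵥ red γ)) ≤ 2 ^ r * D :=
        le_trans (sum_le_sum fun n _ => hlow n) hu
      rw [← mul_sum, key_sum0 hγ', mul_comm] at h5
      have h6 := le_of_mul_le_mul_left h5 hpow
      linarith [hℓ e]
    · have hk3 : k = 1 := by omega
      subst hk3
      refine ⟨γ, fun x => by rw [hk' x, pow_one], ?_⟩
      by_contra hcon
      have hγP : red γ ≠ red (ev L P) := fun h => hcon ((hred _ _).1 h)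
      have hlow : ∀ n : Fin r → ZMod 2,
          (2 * (ℓ e - 1)) * ((1 - chi (n ⬝ᵥ red γ)) * (1 + 1 * chi (n ⬝ᵥ red (ev L P)))) ≤
          2 * (ℓ e * c e (u n) ^ 2 + 2 * (u n : E → ℤ) e * c e (u n)) -
          (ℓ e - 2) * (1 - chi (n ⬝ᵥ red (c e))) := by
        intro n
        have hz : 0 ≤ 2 * (ℓ e * c e (u n) ^ 2 + 2 * (u n : E → ℤ) e * c e (u n)) -
            (ℓ e - 2) * (1 - chi (n ⬝ᵥ red (c e))) := by
          have h2 := hterm n e he
          rw [hj0 e he, pow_zero, mul_one, ← hcgL e he] at h2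
          linarith
        rcases hchi n γ with ⟨-, h5⟩ | ⟨h5, h6⟩
        · rw [h5, sub_self, zero_mul, mul_zero]
          exact hz
        · rcases hchi n (ev L P) with ⟨h7, h8⟩ | ⟨-, h8⟩
          · rw [← hPe, h8, h6]
            have h9 : (u n : E → ℤ) P = 0 := by
              rw [ev_apply] at h7
              rcases hu1 n P with h | h | h
              · exact h
              · rw [h] at h7; exact absurd h7 (by decide)
              · rw [h] at h7; exact absurd h7 (by decide)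
            have h10 : c e (u n) = 2 * γ (u n) := by rw [hk', h9, mul_zero, zero_add, pow_one]
            have h11 : 2 ≤ |c e (u n)| := by
              rw [h10]
              obtain ⟨t, ht⟩ := h5
              rw [ht, le_abs]
              omega
            have h12 : -|c e (u n)| ≤ (u n : E → ℤ) e * c e (u n) := by
              rcases hu1 n e with h | h | h <;> rw [h]
              · rw [zero_mul]; exact neg_nonpos.2 (abs_nonneg _)
              · rw [one_mul]; exact neg_abs_le _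
              · rw [neg_one_mul, neg_le_neg_iff]; exact le_abs_self _
            have h13 : c e (u n) ^ 2 = |c e (u n)| ^ 2 := (sq_abs _).symm
            rw [h13, mul_assoc]
            have h14 := hℓ e
            generalize |c e (u n)| = a at h11 h12 h13 ⊢
            have h16 : 0 ≤ (a - 2) * (ℓ e * (a + 2) - 2) :=
              mul_nonneg (by linarith) (by nlinarith)
            have h15 : 4 * ℓ e - 4 ≤ ℓ e * a ^ 2 - 2 * a := by
              have h17 : (a - 2) * (ℓ e * (a + 2) - 2) = ℓ e * a ^ 2 - 2 * a - (4 * ℓ e - 4) := by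
                ring
              linarith
            nlinarith
          · rw [h8]
            have : (1 - chi (n ⬝ᵥ red γ)) * (1 + 1 * (-1 : ℤ)) = 0 := by ring
            rw [this, mul_zero]
            exact hz
      have h5 : ∑ n : Fin r → ZMod 2,
          (2 * (ℓ e - 1)) * ((1 - chi (n ⬝ᵥ red γ)) * (1 + 1 * chi (n ⬝ᵥ red (ev L P)))) ≤
          2 ^ r * D := le_trans (sum_le_sum fun n _ => hlow n) hu
      rw [← mul_sum, key_sum hγ' (hodd' P hP), if_neg hγP, mul_zero, sub_zero, mul_one,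
        mul_comm] at h5
      have h6 := le_of_mul_le_mul_left h5 hpow
      linarith [hℓ e]
  refine ⟨?_, ?_⟩
  · intro e he
    obtain ⟨P, hP, hPe⟩ := hST e he
    refine ⟨P, hP, ?_⟩
    rcases hstage e he P hP hPe 1 (Or.inl rfl) with h | ⟨g1, h2, h3⟩
    · left
      intro x
      rw [h, one_mul]
    · rcases hstage e he P hP hPe (-1) (Or.inr rfl) with h | ⟨g2, h4, h5⟩
      · right
        intro x
        rw [h]; ring
      · exfalso
        obtain ⟨x, hx⟩ := hodd P hP
        have h6 := h2 x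
        have h7 := h4 x
        have h8 : (x : E → ℤ) P = g2 x - g1 x := by linarith
        have h9 : (((x : E → ℤ) P : ℤ) : ZMod 2) = 0 := by
          rw [h8, Int.cast_sub, h3, h5, sub_self]
        rw [cast_zero_iff] at h9
        exact (Int.not_even_iff_odd.2 hx) h9
  · intro P hP
    obtain ⟨e, he, h2⟩ := hTS P hP
    exact ⟨e, he, (hred _ _).1 h2⟩

end Pool.Agent.H762.MX
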