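import Pool.Agent.H762.TG.Defs

/-!
# Alternating links with long twist regions: definitions
-/

set_option autoImplicit false

namespace Pool.Agent.H762.MX

open Finset
open Pool.Agent.H762.TG (Multigraph IsIsometry)

/-- The edges `e` and `f` of `G` are parallel: a cut vanishes at `e` if and only if it vanishes at
`f` (for edges which are not loops: they have the same ends). -/
def Parallel {V E : Type} (G : Multigraph V E) (e f : E) : Prop :=
  ∀ x ∈ G.cuts, (x e = 0 ↔ x f = 0)

/-- Let `L` be a lattice of integral functions on `E` and let every `e` in `E` be replaced by the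
elements `⟨e, i⟩`, `i < ℓ e`. The lattice `blowup L S ℓ` consists of the functions `z` for which
there is an `x ∈ L` such that the sum of `z` over the elements of `e` is `x e` for `e ∈ S`, and `z`
has the constant value `x e` on the elements of `e` for `e ∉ S`.

If `L` is the lattice of cuts of a graph, this is the lattice of cuts of the graph in which each
edge `e ∈ S` is replaced by a path of `ℓ e` edges and each edge `e ∉ S` by `ℓ e` parallel edges.
If `L` is the lattice of flows, the two roles are exchanged. -/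
def blowup {E : Type} (L : Submodule ℤ (E → ℤ)) (S : Finset E) (ℓ : E → ℕ) :
    Submodule ℤ ((Σ e, Fin (ℓ e)) → ℤ) where
  carrier := {z | ∃ x ∈ L, (∀ e ∈ S, ∑ i, z ⟨e, i⟩ = x e) ∧ ∀ e, e ∉ S → ∀ i, z ⟨e, i⟩ = x e}
  add_mem' := by
    rintro z z' ⟨x, hx, h1, h2⟩ ⟨x', hx', h1', h2'⟩
    refine ⟨x + x', L.add_mem hx hx', fun e he => ?_, fun e he i => ?_⟩
    · simp only [Pi.add_apply, sum_add_distrib, h1 e he, h1' e he]
    · simp only [Pi.add_apply, h2 e he i, h2' e he i]
  zero_mem' := ⟨0, L.zero_mem, fun e _ => by simp, fun e _ i => rfl⟩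
  smul_mem' := by
    rintro c z ⟨x, hx, h1, h2⟩
    refine ⟨c • x, L.smul_mem c hx, fun e he => ?_, fun e he i => ?_⟩
    · simp only [Pi.smul_apply, smul_eq_mul, ← mul_sum, h1 e he]
    · simp only [Pi.smul_apply, smul_eq_mul, h2 e he i]

/-- The graph `G` has neither loops nor bridges, no two edges in `S` are in series, no two edges
outside `S` are parallel, and all the lengths `ℓ e` are at least `m + 3`, where `m` is the number of
edges of `G`. -/
def LongRegions {V E : Type} [Fintype E] [DecidableEq V] (G : Multigraph V E) (S : Finset E)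
    (ℓ : E → ℕ) : Prop :=
  (∀ e, (∃ x ∈ G.cuts, x e ≠ 0) ∧ ∃ y ∈ G.flows, y e ≠ 0) ∧
    (∀ e ∈ S, ∀ f ∈ S, G.Series e f → e = f) ∧
    (∀ e, e ∉ S → ∀ f, f ∉ S → Parallel G e f → e = f) ∧ ∀ e, Fintype.card E + 3 ≤ ℓ e

/-- The lattice `M` is embedded isometrically in the standard lattice of the same rank. -/
def StdEmbeds {ι : Type} [Fintype ι] (M : Submodule ℤ (ι → ℤ)) : Prop :=
  ∃ φ : (ι → ℤ) → Fin (Module.finrank ℤ M) → ℤ, IsIsometry M φ

end Pool.Agent.H762.MX
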