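import Pool.Agent.H762.MX.Blow

/-!
An embedding of a blown up lattice gives functionals.
-/

set_option autoImplicit false

namespace Pool.Agent.H762.MX

open Finset Matrix
open Pool.Agent.H762.TG (chi sum_chi chi_add zmod_add_self IsUnit' chains)

variable {E : Type} [Fintype E] [DecidableEq E]

/-- the roots -/
def rt (ℓ : E → ℕ) (e : E) (s : ℕ) (h : s + 1 < ℓ e) : (Σ e, Fin (ℓ e)) → ℤ :=
  Pi.single ⟨e, ⟨s, Nat.lt_of_succ_lt h⟩⟩ 1 - Pi.single ⟨e, ⟨s + 1, h⟩⟩ 1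

theorem rt_dot (ℓ : E → ℕ) (e : E) (s : ℕ) (h : s + 1 < ℓ e) (z : (Σ e, Fin (ℓ e)) → ℤ) :
    rt ℓ e s h ⬝ᵥ z = z ⟨e, ⟨s, Nat.lt_of_succ_lt h⟩⟩ - z ⟨e, ⟨s + 1, h⟩⟩ := by
  rw [rt, sub_dotProduct, single_dotProduct, single_dotProduct, one_mul, one_mul]

omit [Fintype E] in
theorem rt_apply (ℓ : E → ℕ) (f : E) (r : ℕ) (h : r + 1 < ℓ f) (e : E) (i : Fin (ℓ e)) :
    rt ℓ f r h ⟨e, i⟩ = if e = f then (if (i : ℕ) = r then 1 else 0) -
      (if (i : ℕ) = r + 1 then 1 else 0) else 0 := by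
  rw [rt, Pi.sub_apply, Pi.single_apply, Pi.single_apply]
  by_cases hef : e = f
  · subst hef
    simp only [Sigma.mk.injEq, heq_eq_eq, true_and, Fin.ext_iff, if_true]
  · rw [if_neg hef, if_neg, if_neg, sub_zero]
    · intro h'; exact hef (congrArg Sigma.fst h')
    · intro h'; exact hef (congrArg Sigma.fst h')

omit [Fintype E] in
theorem rt_mem {L : Submodule ℤ (E → ℤ)} {S : Finset E} {ℓ : E → ℕ} {e : E} (he : e ∈ S) (s : ℕ)
    (h : s + 1 < ℓ e) : rt ℓ e s h ∈ blowup L S ℓ := by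
  refine ⟨0, L.zero_mem, fun f hf => ?_, fun f hf i => ?_⟩
  · simp only [rt_apply, Pi.zero_apply]
    by_cases hef : f = e
    · subst hef
      simp only [if_true]
      rw [sum_sub_distrib]
      rw [sum_eq_single (⟨s, Nat.lt_of_succ_lt h⟩ : Fin (ℓ f)),
        sum_eq_single (⟨s + 1, h⟩ : Fin (ℓ f))]
      · simp
      · intro j _ hj
        rw [if_neg]
        intro h'; exact hj (Fin.ext h')
      · intro h'; exact absurd (mem_univ _) h'
      · intro j _ hj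
        rw [if_neg]
        intro h'; exact hj (Fin.ext h')
      · intro h'; exact absurd (mem_univ _) h'
    · simp [hef]
  · rw [rt_apply, if_neg]
    · rfl
    · rintro rfl
      exact hf he

/-- a section of the projection to `L` -/
def sec (L : Submodule ℤ (E → ℤ)) (S : Finset E) (ℓ : E → ℕ) (hpos : ∀ e, 0 < ℓ e) :
    L →ₗ[ℤ] blowup L S ℓ where
  toFun x := ⟨fun k => if k.1 ∈ S ∧ (k.2 : ℕ) ≠ 0 then 0 else (x : E → ℤ) k.1, x, x.2,
    fun e he => by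
      rw [sum_eq_single (⟨0, hpos e⟩ : Fin (ℓ e))]
      · simp
      · intro j _ hj
        exact if_pos ⟨he, fun h => hj (Fin.ext h)⟩
      · intro h'; exact absurd (mem_univ _) h',
    fun e he i => if_neg fun h => he h.1⟩
  map_add' x y := by
    apply Subtype.ext
    funext k
    change (if k.1 ∈ S ∧ (k.2 : ℕ) ≠ 0 then 0 else (x : E → ℤ) k.1 + (y : E → ℤ) k.1) =
      (if k.1 ∈ S ∧ (k.2 : ℕ) ≠ 0 then 0 else (x : E → ℤ) k.1) +
      (if k.1 ∈ S ∧ (k.2 : ℕ) ≠ 0 then 0 else (y : E → ℤ) k.1)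
    split_ifs <;> simp
  map_smul' c x := by
    apply Subtype.ext
    funext k
    change (if k.1 ∈ S ∧ (k.2 : ℕ) ≠ 0 then 0 else c * (x : E → ℤ) k.1) =
      c * (if k.1 ∈ S ∧ (k.2 : ℕ) ≠ 0 then 0 else (x : E → ℤ) k.1)
    split_ifs <;> simp

omit [Fintype E] in
theorem sec_apply (L : Submodule ℤ (E → ℤ)) (S : Finset E) (ℓ : E → ℕ) (hpos : ∀ e, 0 < ℓ e)
    (x : L) (k : Σ e, Fin (ℓ e)) : (sec L S ℓ hpos x : (Σ e, Fin (ℓ e)) → ℤ) k =
      if k.1 ∈ S ∧ (k.2 : ℕ) ≠ 0 then 0 else (x : E → ℤ) k.1 := rfl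

theorem of_embedding {L : Submodule ℤ (E → ℤ)} {S T : Finset E} (hST : ∀ e, e ∈ T ↔ e ∉ S)
    {ℓ : E → ℕ} (hℓ : ∀ e, 5 ≤ ℓ e) {ι : Type} [Fintype ι] [DecidableEq ι]
    (φ : blowup L S ℓ →ₗ[ℤ] (ι → ℤ))
    (hφ : ∀ a b, φ a ⬝ᵥ φ b = (a : (Σ e, Fin (ℓ e)) → ℤ) ⬝ᵥ (b : (Σ e, Fin (ℓ e)) → ℤ)) :
    (∑ e ∈ S, ℓ e ≤ Fintype.card ι) ∧
    (Fintype.card ι = ∑ e ∈ S, ℓ e → ∃ c : E → L →ₗ[ℤ] ℤ, ∀ x : L,
      ∑ P ∈ T, (ℓ P : ℤ) * (x : E → ℤ) P ^ 2 =
        ∑ e ∈ S, ((ℓ e : ℤ) * c e x ^ 2 + 2 * (x : E → ℤ) e * c e x)) := by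
  classical
  have hpos : ∀ e, 0 < ℓ e := fun e => by have := hℓ e; omega
  let v : S → ℕ → ι → ℤ := fun e s =>
    if h : s + 1 < ℓ e then φ ⟨rt ℓ e s h, rt_mem e.2 s h⟩ else 0
  have hv : ∀ (e : S) (s : ℕ) (h : s + 1 < ℓ e), v e s = φ ⟨rt ℓ e s h, rt_mem e.2 s h⟩ :=
    fun e s h => dif_pos h
  have hvv : ∀ (e f : S) (s r : ℕ) (h : s + 1 < ℓ e) (h' : r + 1 < ℓ f),
      v e s ⬝ᵥ v f r = (if e = f then (if s = r then 1 else 0) -
      (if s = r + 1 then 1 else 0) else 0) - (if e = f then (if s + 1 = r then 1 else 0) -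
      (if s + 1 = r + 1 then 1 else 0) else 0) := by
    intro e f s r h h'
    rw [hv e s h, hv f r h', hφ]
    change rt ℓ e s h ⬝ᵥ rt ℓ f r h' = _
    rw [rt_dot, rt_apply, rt_apply]
    simp only [Subtype.ext_iff]
  obtain ⟨b, ε, hg, hb⟩ := chains (J := S) (q := fun e => ℓ e) (v := v)
    (fun j => by have := hℓ j; omega)
    (by
      intro j s hs
      rw [hvv j j s s (by omega) (by omega)]
      simp)
    (by
      intro j s hs
      rw [hvv j j s (s + 1) (by omega) (by omega), if_pos rfl, if_pos rfl, if_neg (by omega),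
        if_neg (by omega), if_pos rfl, if_neg (by omega)]
      ring)
    (by
      intro j s r hs hr
      rw [hvv j j s r (by omega) (by omega), if_pos rfl, if_pos rfl, if_neg (by omega),
        if_neg (by omega), if_neg (by omega), if_neg (by omega)]
      ring)
    (by
      intro j l s r hjl hs hr
      rw [hvv j l s r (by omega) (by omega), if_neg hjl, if_neg hjl, sub_zero])
    (by intro j hj; have := hℓ j; omega)
    (by intro j l _ hj; have := hℓ j; omega)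
  let B : (Σ e : S, Fin (ℓ e)) → ι := fun k => b k.1 k.2
  have hB : Function.Injective B := by
    rintro ⟨e, i⟩ ⟨f, j⟩ h
    obtain ⟨h1, h2⟩ := hb e f i j i.2 j.2 h
    subst h1
    rw [Fin.ext h2]
  have hcard : Fintype.card (Σ e : S, Fin (ℓ e)) = ∑ e ∈ S, ℓ e := by
    rw [Fintype.card_sigma, ← sum_coe_sort S fun e => ℓ e]
    simp
  refine ⟨by rw [← hcard]; exact Fintype.card_le_of_injective B hB, fun hc => ?_⟩
  have hBb : Function.Bijective B :=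
    (Fintype.bijective_iff_injective_and_card B).2 ⟨hB, by rw [hcard, hc]⟩
  have hεsq : ∀ (e : S) (s : ℕ), s < ℓ e → ε e s * ε e s = 1 := by
    intro e s hs
    rcases (hg e).1 s (by omega) with h | h <;> rw [h] <;> rfl
  -- the differences are constant along a class
  have hconst : ∀ (z : blowup L S ℓ) (e : S) (s : ℕ) (hs : s < ℓ e),
      ε e s * φ z (b e s) - (z : (Σ e, Fin (ℓ e)) → ℤ) ⟨e, ⟨s, hs⟩⟩ =
      ε e 0 * φ z (b e 0) - (z : (Σ e, Fin (ℓ e)) → ℤ) ⟨e, ⟨0, hpos e⟩⟩ := by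
    intro z e s
    induction s with
    | zero => intro _; rfl
    | succ s ih =>
      intro hs
      rw [← ih (by omega)]
      have h1 := (hg e).dot (φ z) (s := s) (by omega)
      have h2 : v e s ⬝ᵥ φ z = rt ℓ e s hs ⬝ᵥ (z : (Σ e, Fin (ℓ e)) → ℤ) := by
        rw [hv e s hs]
        exact hφ _ _
      rw [h2, rt_dot] at h1
      linarith
  let c : E → L →ₗ[ℤ] ℤ := fun e => if h : e ∈ S then
    (ε ⟨e, h⟩ 0) • (LinearMap.proj (b ⟨e, h⟩ 0) ∘ₗ φ ∘ₗ sec L S ℓ hpos) - ev L e else 0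
  have hce : ∀ (e : S) (x : L), c e x =
      ε e 0 * φ (sec L S ℓ hpos x) (b e 0) - (x : E → ℤ) e := by
    intro e x
    simp only [c, dif_pos e.2]
    rfl
  refine ⟨c, fun x => ?_⟩
  set z := sec L S ℓ hpos x with hz
  have h0 : ∀ e, (z : (Σ e, Fin (ℓ e)) → ℤ) ⟨e, ⟨0, hpos e⟩⟩ = (x : E → ℤ) e := by
    intro e
    rw [hz, sec_apply, if_neg]
    simp
  have hval : ∀ (e : S) (i : Fin (ℓ e)), φ z (b e i) ^ 2 =
      ((z : (Σ e, Fin (ℓ e)) → ℤ) ⟨e, i⟩ + c e x) ^ 2 := by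
    intro e i
    have h1 := hconst z e i i.2
    rw [h0, ← hce] at h1
    have h2 : (z : (Σ e, Fin (ℓ e)) → ℤ) ⟨e, i⟩ + c e x = ε e i * φ z (b e i) := by
      have : (⟨(i : ℕ), i.2⟩ : Fin (ℓ e)) = i := rfl
      rw [this] at h1
      linarith
    rw [h2, mul_pow, sq (ε e i), hεsq e i i.2, one_mul]
  have hS1 : ∀ e ∈ S, ∑ i, (z : (Σ e, Fin (ℓ e)) → ℤ) ⟨e, i⟩ = (x : E → ℤ) e := by
    intro e he
    rw [sum_eq_single (⟨0, hpos e⟩ : Fin (ℓ e))]
    · exact h0 e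
    · intro j _ hj
      rw [hz, sec_apply, if_pos]
      exact ⟨he, fun h => hj (Fin.ext h)⟩
    · intro h'; exact absurd (mem_univ _) h'
  have hS2 : ∀ e ∈ S, ∑ i, (z : (Σ e, Fin (ℓ e)) → ℤ) ⟨e, i⟩ ^ 2 = (x : E → ℤ) e ^ 2 := by
    intro e he
    rw [sum_eq_single (⟨0, hpos e⟩ : Fin (ℓ e))]
    · rw [h0 e]
    · intro j _ hj
      rw [hz, sec_apply, if_pos]
      · norm_num
      · exact ⟨he, fun h => hj (Fin.ext h)⟩
    · intro h'; exact absurd (mem_univ _) h'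
  have hT2 : ∀ e ∈ T, ∑ i, (z : (Σ e, Fin (ℓ e)) → ℤ) ⟨e, i⟩ ^ 2 = ℓ e * (x : E → ℤ) e ^ 2 := by
    intro e he
    have h1 : ∀ i : Fin (ℓ e), (z : (Σ e, Fin (ℓ e)) → ℤ) ⟨e, i⟩ ^ 2 = (x : E → ℤ) e ^ 2 := by
      intro i
      rw [hz, sec_apply, if_neg]
      exact fun h => (hST e).1 he h.1
    rw [sum_congr rfl fun i _ => h1 i, sum_const, card_univ, Fintype.card_fin, nsmul_eq_mul]
  have hn := hφ z z
  have hl : φ z ⬝ᵥ φ z = ∑ e ∈ S, ((x : E → ℤ) e ^ 2 + 2 * (x : E → ℤ) e * c e x +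
      ℓ e * c e x ^ 2) := by
    rw [dotProduct, ← (Equiv.ofBijective B hBb).sum_comp, Fintype.sum_sigma,
      ← sum_coe_sort S fun e => ((x : E → ℤ) e ^ 2 + 2 * (x : E → ℤ) e * c e x +
      ℓ e * c e x ^ 2)]
    apply sum_congr rfl
    intro e _
    have h1 : ∀ i : Fin (ℓ e), φ z ((Equiv.ofBijective B hBb) ⟨e, i⟩) *
        φ z ((Equiv.ofBijective B hBb) ⟨e, i⟩) =
        (z : (Σ e, Fin (ℓ e)) → ℤ) ⟨e, i⟩ ^ 2 + 2 * c e x * (z : (Σ e, Fin (ℓ e)) → ℤ) ⟨e, i⟩ +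
        c e x ^ 2 := by
      intro i
      change φ z (b e i) * φ z (b e i) = _
      rw [← sq, hval e i]
      ring
    rw [sum_congr rfl fun i _ => h1 i, sum_add_distrib, sum_add_distrib, ← mul_sum,
      hS1 e e.2, hS2 e e.2, sum_const, card_univ, Fintype.card_fin, nsmul_eq_mul]
    ring
  have hr : (z : (Σ e, Fin (ℓ e)) → ℤ) ⬝ᵥ (z : (Σ e, Fin (ℓ e)) → ℤ) =
      ∑ e ∈ S, (x : E → ℤ) e ^ 2 + ∑ e ∈ T, ℓ e * (x : E → ℤ) e ^ 2 := by
    rw [dotProduct, Fintype.sum_sigma]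
    have hdisj : Disjoint S T := by
      rw [disjoint_left]
      intro e he he'
      exact (hST e).1 he' he
    have huniv : (univ : Finset E) = S ∪ T := by
      ext e
      rw [mem_union, hST e]
      simp [em]
    rw [huniv, sum_union hdisj]
    congr 1
    · apply sum_congr rfl
      intro e he
      rw [← hS2 e he]
      exact sum_congr rfl fun i _ => (sq _).symm
    · apply sum_congr rfl
      intro e he
      rw [← hT2 e he]
      exact sum_congr rfl fun i _ => (sq _).symm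
  rw [hl, hr] at hn
  have h3 : ∑ e ∈ S, ((x : E → ℤ) e ^ 2 + 2 * (x : E → ℤ) e * c e x + ℓ e * c e x ^ 2) =
      ∑ e ∈ S, (x : E → ℤ) e ^ 2 + ∑ e ∈ S, ((ℓ e : ℤ) * c e x ^ 2 + 2 * (x : E → ℤ) e * c e x) := by
    rw [← sum_add_distrib]
    exact sum_congr rfl fun e _ => by ring
  rw [h3] at hn
  linarith

end Pool.Agent.H762.MX
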