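import Pool.Agent.H762.TG.Torelli

/-!
Sums of characters of `(ℤ/2)^r`.
-/

set_option autoImplicit false

namespace Pool.Agent.H762.MX

open Finset Matrix
open Pool.Agent.H762.TG (chi sum_chi chi_add zmod_add_self IsUnit')

theorem chi_cases (a : ZMod 2) : (a = 0 ∧ chi a = 1) ∨ (a = 1 ∧ chi a = -1) := by
  revert a
  unfold chi
  decide

theorem chi_zero : chi 0 = 1 := by simp [chi]

theorem sum_chi_eq {r : ℕ} (μ : Fin r → ZMod 2) :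
    ∑ n : Fin r → ZMod 2, chi (n ⬝ᵥ μ) = if μ = 0 then (2 : ℤ) ^ r else 0 := by
  split_ifs with h
  · subst h
    simp [chi_zero]
  · exact sum_chi μ h

theorem sum_chi_mul_chi {r : ℕ} (μ h : Fin r → ZMod 2) :
    ∑ n : Fin r → ZMod 2, chi (n ⬝ᵥ μ) * chi (n ⬝ᵥ h) = if μ = h then (2 : ℤ) ^ r else 0 := by
  simp only [← chi_add, ← dotProduct_add]
  rw [sum_chi_eq]
  congr 1
  apply propext
  constructor
  · intro h1
    funext i
    have h2 := congrFun h1 i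
    rw [Pi.add_apply, Pi.zero_apply] at h2
    have : ∀ a b : ZMod 2, a + b = 0 → a = b := by decide
    exact this _ _ h2
  · rintro rfl
    funext i
    exact zmod_add_self _

theorem sum_one {r : ℕ} : ∑ _n : Fin r → ZMod 2, (1 : ℤ) = 2 ^ r := by simp

theorem key_sum0 {r : ℕ} {μ : Fin r → ZMod 2} (hμ : μ ≠ 0) :
    ∑ n : Fin r → ZMod 2, (1 - chi (n ⬝ᵥ μ)) = 2 ^ r := by
  rw [sum_sub_distrib, sum_one, sum_chi_eq, if_neg hμ, sub_zero]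

theorem key_sum {r : ℕ} {μ h : Fin r → ZMod 2} (hμ : μ ≠ 0) (hh : h ≠ 0) (s : ℤ) :
    ∑ n : Fin r → ZMod 2, (1 - chi (n ⬝ᵥ μ)) * (1 + s * chi (n ⬝ᵥ h)) =
      2 ^ r * (1 - s * if μ = h then 1 else 0) := by
  have h1 : ∀ n : Fin r → ZMod 2, (1 - chi (n ⬝ᵥ μ)) * (1 + s * chi (n ⬝ᵥ h)) =
      1 - chi (n ⬝ᵥ μ) + s * chi (n ⬝ᵥ h) - s * (chi (n ⬝ᵥ μ) * chi (n ⬝ᵥ h)) := by
    intro n; ring
  simp only [h1, sum_sub_distrib, sum_add_distrib, ← mul_sum]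
  rw [sum_one, sum_chi_eq, sum_chi_eq, sum_chi_mul_chi, if_neg hμ, if_neg hh]
  split_ifs <;> ring

theorem pow_pos' (r : ℕ) : (0 : ℤ) < 2 ^ r := by positivity

theorem four {r : ℕ} {A B : Type} (T : Finset A) (S : Finset B) (p : A → ℤ) (w : B → ℤ)
    (μ : A → Fin r → ZMod 2) (ν : B → Fin r → ZMod 2) (hμ : ∀ a ∈ T, μ a ≠ 0)
    (hν : ∀ b ∈ S, ν b ≠ 0)
    (h : ∀ n : Fin r → ZMod 2, 0 ≤ ∑ a ∈ T, p a * (1 - chi (n ⬝ᵥ μ a)) -
      ∑ b ∈ S, w b * (1 - chi (n ⬝ᵥ ν b)))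
    {k : Fin r → ZMod 2} (hk : k ≠ 0) {s : ℤ} (hs : s = 1 ∨ s = -1) :
    0 ≤ ∑ a ∈ T, p a * (1 - s * if μ a = k then 1 else 0) -
      ∑ b ∈ S, w b * (1 - s * if ν b = k then 1 else 0) := by
  have h1 : 0 ≤ ∑ n : Fin r → ZMod 2, (∑ a ∈ T, p a * (1 - chi (n ⬝ᵥ μ a)) -
      ∑ b ∈ S, w b * (1 - chi (n ⬝ᵥ ν b))) * (1 + s * chi (n ⬝ᵥ k)) := by
    apply sum_nonneg
    intro n _
    apply mul_nonneg (h n)
    rcases hs with rfl | rfl <;> rcases chi_cases (n ⬝ᵥ k) with ⟨-, h2⟩ | ⟨-, h2⟩ <;> rw [h2] <;>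
      norm_num
  have h2 : ∑ n : Fin r → ZMod 2, (∑ a ∈ T, p a * (1 - chi (n ⬝ᵥ μ a)) -
      ∑ b ∈ S, w b * (1 - chi (n ⬝ᵥ ν b))) * (1 + s * chi (n ⬝ᵥ k)) =
      2 ^ r * (∑ a ∈ T, p a * (1 - s * if μ a = k then 1 else 0) -
      ∑ b ∈ S, w b * (1 - s * if ν b = k then 1 else 0)) := by
    simp only [sub_mul, sum_sub_distrib, sum_mul]
    rw [mul_sub, mul_sum, mul_sum, sum_comm, sum_comm (s := univ) (t := S)]
    congr 1
    · apply sum_congr rfl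
      intro a ha
      rw [mul_left_comm, ← key_sum (hμ a ha) hk s, mul_sum]
      exact sum_congr rfl fun n _ => by ring
    · apply sum_congr rfl
      intro a ha
      rw [mul_left_comm, ← key_sum (hν a ha) hk s, mul_sum]
      exact sum_congr rfl fun n _ => by ring
  rw [h2] at h1
  exact nonneg_of_mul_nonneg_right h1 (pow_pos' r)

theorem four_sum {r : ℕ} {A B : Type} (T : Finset A) (S : Finset B) (p : A → ℤ) (w : B → ℤ)
    (μ : A → Fin r → ZMod 2) (ν : B → Fin r → ZMod 2) (hμ : ∀ a ∈ T, μ a ≠ 0)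
    (hν : ∀ b ∈ S, ν b ≠ 0) :
    ∑ n : Fin r → ZMod 2, (∑ a ∈ T, p a * (1 - chi (n ⬝ᵥ μ a)) -
      ∑ b ∈ S, w b * (1 - chi (n ⬝ᵥ ν b))) = 2 ^ r * (∑ a ∈ T, p a - ∑ b ∈ S, w b) := by
  rw [sum_sub_distrib, mul_sub, mul_sum, mul_sum, sum_comm, sum_comm (s := univ) (t := S)]
  congr 1
  · apply sum_congr rfl
    intro a ha
    rw [← mul_sum, key_sum0 (hμ a ha), mul_comm]
  · apply sum_congr rfl
    intro a ha
    rw [← mul_sum, key_sum0 (hν a ha), mul_comm]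

/-- the parity of an integer as a character value -/
theorem chi_cast (a : ℤ) : (Even a ∧ chi ((a : ℤ) : ZMod 2) = 1) ∨
    (Odd a ∧ chi ((a : ℤ) : ZMod 2) = -1) := by
  rcases Int.even_or_odd a with h | h
  · left
    refine ⟨h, ?_⟩
    rw [(ZMod.intCast_zmod_eq_zero_iff_dvd a 2).2 (by exact_mod_cast h.two_dvd), chi_zero]
  · right
    refine ⟨h, ?_⟩
    rcases chi_cases ((a : ℤ) : ZMod 2) with ⟨h1, -⟩ | ⟨-, h1⟩
    · rw [ZMod.intCast_zmod_eq_zero_iff_dvd] at h1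
      exact absurd (even_iff_two_dvd.2 (by exact_mod_cast h1)) (Int.not_even_iff_odd.2 h)
    · exact h1

theorem cast_zero_iff (a : ℤ) : ((a : ℤ) : ZMod 2) = 0 ↔ Even a := by
  rw [ZMod.intCast_zmod_eq_zero_iff_dvd, even_iff_two_dvd]
  norm_num

/-- Representatives of the classes of `L` modulo two. -/
theorem exists_reps {E : Type} [Fintype E] (L : Submodule ℤ (E → ℤ))
    (hL : ∀ x ∈ L, ∃ u z, u ∈ L ∧ z ∈ L ∧ x = u + (2 : ℤ) • z ∧ IsUnit' u) :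
    ∃ (r : ℕ) (red : (L →ₗ[ℤ] ℤ) → Fin r → ZMod 2) (u : (Fin r → ZMod 2) → L),
      (∀ n, IsUnit' (u n : E → ℤ)) ∧
      (∀ n (g : L →ₗ[ℤ] ℤ), ((g (u n) : ℤ) : ZMod 2) = n ⬝ᵥ red g) ∧
      (∀ g h : L →ₗ[ℤ] ℤ, red g = red h ↔ ∀ x : L, ((g x : ℤ) : ZMod 2) = ((h x : ℤ) : ZMod 2)) ∧
      red 0 = 0 := by
  classical
  let b := Module.finBasis ℤ L
  have hrep : ∀ (g : L →ₗ[ℤ] ℤ) (x : L), ((g x : ℤ) : ZMod 2) =
      (fun i => ((b.repr x i : ℤ) : ZMod 2)) ⬝ᵥ (fun i => ((g (b i) : ℤ) : ZMod 2)) := by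
    intro g x
    conv_lhs => rw [← b.sum_repr x, map_sum]
    rw [Int.cast_sum, dotProduct]
    apply sum_congr rfl
    intro i _
    rw [map_smul, smul_eq_mul, Int.cast_mul]
  have hex : ∀ n : Fin (Module.finrank ℤ L) → ZMod 2, ∃ u : L, IsUnit' (u : E → ℤ) ∧
      ∀ g : L →ₗ[ℤ] ℤ, ((g u : ℤ) : ZMod 2) = n ⬝ᵥ (fun i => ((g (b i) : ℤ) : ZMod 2)) := by
    intro n
    let x : L := ∑ i, ((n i).val : ℤ) • b i
    obtain ⟨u, z, hu, hz, he, hun⟩ := hL x x.2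
    refine ⟨⟨u, hu⟩, hun, fun g => ?_⟩
    have h1 : x = (⟨u, hu⟩ : L) + (2 : ℤ) • (⟨z, hz⟩ : L) := Subtype.ext he
    have h2 : ((g x : ℤ) : ZMod 2) = ((g ⟨u, hu⟩ : ℤ) : ZMod 2) := by
      rw [h1, map_add, map_smul, smul_eq_mul, Int.cast_add, Int.cast_mul]
      have : ((2 : ℤ) : ZMod 2) = 0 := by decide
      rw [this, zero_mul, add_zero]
    rw [← h2]
    change ((g (∑ i, ((n i).val : ℤ) • b i) : ℤ) : ZMod 2) = _
    rw [map_sum, Int.cast_sum, dotProduct]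
    apply sum_congr rfl
    intro i _
    rw [map_smul, smul_eq_mul, Int.cast_mul]
    congr 1
    have : ∀ a : ZMod 2, (((a.val : ℕ) : ℤ) : ZMod 2) = a := by decide
    exact this _
  choose u hu1 hu2 using hex
  refine ⟨_, fun g i => ((g (b i) : ℤ) : ZMod 2), u, hu1, hu2, ?_, ?_⟩
  · intro g h
    constructor
    · intro h1 x
      have h2 : (fun i => ((g (b i) : ℤ) : ZMod 2)) = fun i => ((h (b i) : ℤ) : ZMod 2) := h1
      rw [hrep, hrep, h2]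
    · intro h1
      funext i
      exact h1 (b i)
  · funext i
    simp

end Pool.Agent.H762.MX
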